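import Pool.Agent.T6.H99.RC.Defs

/-!
# The algebra of the generating functions
-/

set_option autoImplicit false

namespace Pool.Agent.T6.H99.RC

open PowerSeries

/-- Module ALG. -/
theorem alg : StmtALG := by
  intro Y K d i iS iJ a aS b bS hY hK hd hiS hiJ hi haS ha hbS hb
  obtain ⟨x, hx⟩ : ∃ x : ℤ⟦X⟧, x = X := ⟨_, rfl⟩
  rw [← hx] at hY hd hiS hiJ hi haS hbS ⊢
  clear hx
  have h1 : (1 + K) * (1 - Y) = 1 := by linear_combination hK
  have h2 : x = Y * (1 - Y) := by linear_combination (-x) * h1 + (-(1 - Y)) * hY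
  have hi1 : i = iS * (1 + K) := by linear_combination hi + hiJ
  have hi2 : i * (1 - Y) = iS := by linear_combination (1 - Y) * hi1 + iS * h1
  have hi3 : i * (1 - 2 * Y) = x := by linear_combination hi2 + hiS
  have hJ : iJ = i - Y * i := by linear_combination hiJ - hi1 - hiS
  obtain ⟨t, ht⟩ : ∃ t : ℤ⟦X⟧, t = i * (1 - Y) - Y := ⟨_, rfl⟩
  have ha1 : a * (1 - 2 * Y) = x + d * t := by
    rw [ht]
    linear_combination (1 - Y) * ha + (aS - d) * h1 + haS
  have hb1 : b * (1 - 2 * Y) = x + d * t := by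
    rw [ht]
    linear_combination (1 - Y) * hb + bS * h1 + hbS + d * hJ
  have ht1 : t * (1 - 2 * Y) = Y ^ 3 := by
    rw [ht]
    linear_combination (1 - Y) * hi3 + (1 - Y) * h2
  have hs : (1 - 2 * Y) ^ 2 = 1 - 4 * x := by linear_combination 4 * h2
  have hab : (a + b - i) * (1 - 2 * Y) = x + 2 * (d * t) := by linear_combination ha1 + hb1 - hi3
  have hab2 : (1 - 4 * x) * (a + b - i) = x * (1 - 2 * Y) + 2 * d * Y ^ 3 := by
    rw [← hs]
    linear_combination (1 - 2 * Y) * hab + 2 * d * ht1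
  have e : (1 - x) * (1 - 4 * x) * (1 + (a + b - i)) =
      (1 - x) * (1 - 4 * x) + (1 - x) * (x * (1 - 2 * Y)) + 2 * x * Y ^ 3 := by
    linear_combination (1 - x) * hab2 + 2 * Y ^ 3 * hd
  rw [e]
  linear_combination (2 * x * (1 + Y)) * h2

end Pool.Agent.T6.H99.RC
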