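import Pool.Agent.T6.H99.RC.Defs

/-!
# Decomposition of the generating function of a class of separable permutations
-/

set_option autoImplicit false

namespace Pool.Agent.T6.H99.RC

open PowerSeries

namespace ModCLS

lemma mem_perms {n : ℕ} {w : List ℕ} (h : w ∈ perms n) : w.Nodup ∧ w.length = n := by
  rw [perms, List.mem_toFinset, List.mem_permutations] at h
  exact ⟨h.nodup_iff.2 List.nodup_range, by rw [h.length_eq, List.length_range]⟩

lemma not_SD_of_length {w : List ℕ} (h : w.length ≤ 1) : ¬ SD w := by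
  rintro ⟨u, v, rfl, hu, hv, _⟩
  rw [List.length_append] at h
  have h1 := List.length_pos_iff.2 hu
  have h2 := List.length_pos_iff.2 hv
  omega

lemma not_KD_of_length {w : List ℕ} (h : w.length ≤ 1) : ¬ KD w := by
  rintro ⟨u, v, rfl, hu, hv, _⟩
  rw [List.length_append] at h
  have h1 := List.length_pos_iff.2 hu
  have h2 := List.length_pos_iff.2 hv
  omega

lemma card_perms_one : (perms 1).card = 1 := by
  have : perms 1 = {[0]} := by
    ext w
    rw [perms, List.mem_toFinset, List.mem_permutations, Finset.mem_singleton]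
    exact List.perm_singleton
  rw [this, Finset.card_singleton]

section
open Classical

lemma coeff_congr (P Q : List ℕ → Prop) (n : ℕ) (h : ∀ w ∈ perms n, (P w ↔ Q w)) :
    PowerSeries.coeff n (gf P) = PowerSeries.coeff n (gf Q) := by
  rw [gf, gf, PowerSeries.coeff_mk, PowerSeries.coeff_mk, Finset.filter_congr h]

lemma coeff_none (P : List ℕ → Prop) (n : ℕ) (h : ∀ w ∈ perms n, ¬ P w) :
    PowerSeries.coeff n (gf P) = 0 := by
  rw [gf, PowerSeries.coeff_mk, Finset.filter_false_of_mem h, Finset.card_empty, Nat.cast_zero]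

lemma coeff_all (P : List ℕ → Prop) (n : ℕ) (h : ∀ w ∈ perms n, P w) :
    PowerSeries.coeff n (gf P) = ((perms n).card : ℤ) := by
  rw [gf, PowerSeries.coeff_mk, Finset.filter_true_of_mem h]

lemma coeff_disj (P Q R : List ℕ → Prop) (n : ℕ) (h : ∀ w ∈ perms n, (R w ↔ P w ∨ Q w))
    (h' : ∀ w ∈ perms n, ¬ (P w ∧ Q w)) :
    PowerSeries.coeff n (gf R) = PowerSeries.coeff n (gf P) + PowerSeries.coeff n (gf Q) := by
  rw [gf, gf, gf, PowerSeries.coeff_mk, PowerSeries.coeff_mk, PowerSeries.coeff_mk,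
    ← Nat.cast_add]
  congr 1
  rw [← Finset.card_union_of_disjoint]
  · congr 1
    ext w
    rw [Finset.mem_union, Finset.mem_filter, Finset.mem_filter, Finset.mem_filter]
    constructor
    · rintro ⟨hw, hp⟩
      rcases (h w hw).1 hp with h1 | h1
      · exact Or.inl ⟨hw, h1⟩
      · exact Or.inr ⟨hw, h1⟩
    · rintro (⟨hw, hp⟩ | ⟨hw, hp⟩)
      · exact ⟨hw, (h w hw).2 (Or.inl hp)⟩
      · exact ⟨hw, (h w hw).2 (Or.inr hp)⟩
  · rw [Finset.disjoint_left]
    intro w hw hw'
    rw [Finset.mem_filter] at hw hw'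
    exact h' w hw.1 ⟨hw.2, hw'.2⟩

end

end ModCLS

open ModCLS

/-- Module CLS. -/
theorem cls (hD : StmtDEC) (hF : StmtFST) : StmtCLS := by
  intro P hP h1
  -- the cases of small length
  have hone : ∀ w ∈ perms 1, P w ∧ SI w ∧ KI w ∧ ¬ SD w ∧ ¬ KD w := by
    intro w hw
    have hl := (mem_perms hw).2
    have hne : w ≠ [] := by rintro rfl; simp at hl
    exact ⟨h1 w hl, ⟨hne, not_SD_of_length hl.le⟩, ⟨hne, not_KD_of_length hl.le⟩,
      not_SD_of_length hl.le, not_KD_of_length hl.le⟩
  have hzero : ∀ w ∈ perms 0, ¬ P w := by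
    intro w hw hp
    have hl := (mem_perms hw).2
    exact (hP w hp).1 (List.length_eq_zero_iff.1 hl)
  have hbig : ∀ n, n ≠ 0 → n ≠ 1 → ∀ w ∈ perms n, P w →
      (SD w ∧ ¬ KD w ∧ ¬ SI w ∧ KI w) ∨ (KD w ∧ ¬ SD w ∧ SI w ∧ ¬ KI w) := by
    intro n h0 hn1 w hw hp
    obtain ⟨hnd, hl⟩ := mem_perms hw
    obtain ⟨hne, h2, h3⟩ := hP w hp
    have hdec := hD w hnd (by omega) h2 h3
    have hnot := hF.1 w
    rcases hdec with h | h
    · left
      have hk : ¬ KD w := fun h' => hnot ⟨h, h'⟩
      exact ⟨h, hk, fun h' => h'.2 h, hne, hk⟩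
    · right
      have hk : ¬ SD w := fun h' => hnot ⟨h', h⟩
      exact ⟨h, hk, ⟨hne, hk⟩, fun h' => h'.2 h⟩
  refine ⟨?_, ?_, ?_⟩
  · ext n
    rw [map_add, PowerSeries.coeff_X]
    by_cases hn1 : n = 1
    · subst hn1
      rw [coeff_all _ 1 fun w hw => ⟨(hone w hw).2.1, (hone w hw).1⟩,
        coeff_none _ 1 fun w hw h => (hone w hw).2.2.2.2 h.1, card_perms_one]
      simp
    · rw [if_neg hn1, zero_add]
      by_cases h0 : n = 0
      · subst h0
        rw [coeff_none _ 0 fun w hw h => hzero w hw h.2,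
          coeff_none _ 0 fun w hw h => hzero w hw h.2]
      · refine coeff_congr _ _ n fun w hw => ?_
        constructor
        · rintro ⟨h, hp⟩
          rcases hbig n h0 hn1 w hw hp with h' | h'
          · exact absurd h h'.2.2.1
          · exact ⟨h'.1, hp⟩
        · rintro ⟨h, hp⟩
          rcases hbig n h0 hn1 w hw hp with h' | h'
          · exact absurd h h'.2.1
          · exact ⟨h'.2.2.1, hp⟩
  · ext n
    rw [map_add, PowerSeries.coeff_X]
    by_cases hn1 : n = 1
    · subst hn1
      rw [coeff_all _ 1 fun w hw => ⟨(hone w hw).2.2.1, (hone w hw).1⟩,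
        coeff_none _ 1 fun w hw h => (hone w hw).2.2.2.1 h.1, card_perms_one]
      simp
    · rw [if_neg hn1, zero_add]
      by_cases h0 : n = 0
      · subst h0
        rw [coeff_none _ 0 fun w hw h => hzero w hw h.2,
          coeff_none _ 0 fun w hw h => hzero w hw h.2]
      · refine coeff_congr _ _ n fun w hw => ?_
        constructor
        · rintro ⟨h, hp⟩
          rcases hbig n h0 hn1 w hw hp with h' | h'
          · exact ⟨h'.1, hp⟩
          · exact absurd h h'.2.2.2
        · rintro ⟨h, hp⟩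
          rcases hbig n h0 hn1 w hw hp with h' | h'
          · exact ⟨h'.2.2.2, hp⟩
          · exact absurd h h'.2.1
  · ext n
    rw [map_add, map_add, PowerSeries.coeff_X]
    by_cases hn1 : n = 1
    · subst hn1
      rw [coeff_all _ 1 fun w hw => (hone w hw).1,
        coeff_none _ 1 fun w hw h => (hone w hw).2.2.2.2 h.1,
        coeff_none _ 1 fun w hw h => (hone w hw).2.2.2.1 h.1, card_perms_one]
      simp
    · rw [if_neg hn1, zero_add]
      by_cases h0 : n = 0
      · subst h0
        rw [coeff_none _ 0 hzero, coeff_none _ 0 fun w hw h => hzero w hw h.2,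
          coeff_none _ 0 fun w hw h => hzero w hw h.2, add_zero]
      · refine coeff_disj _ _ _ n (fun w hw => ?_) fun w hw h => hF.1 w ⟨h.2.1, h.1.1⟩
        constructor
        · intro hp
          rcases hbig n h0 hn1 w hw hp with h' | h'
          · exact Or.inr ⟨h'.1, hp⟩
          · exact Or.inl ⟨h'.1, hp⟩
        · rintro (⟨_, hp⟩ | ⟨_, hp⟩)
          · exact hp
          · exact hp

end Pool.Agent.T6.H99.RC
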