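import Pool.Agent.T6.H99.RC.Defs

set_option autoImplicit false

namespace Pool.Agent.T6.H99.RC

namespace ModCVM

open PowerSeries

lemma mem_perms {n : ℕ} {w : List ℕ} : w ∈ perms n ↔ w.Perm (List.range n) := by
  simp [perms, List.mem_permutations]

lemma kd_map (a : ℕ) (w : List ℕ) : KD (w.map (· + a)) ↔ KD w := by
  constructor
  · rintro ⟨u, v, h, hu, hv, hlt⟩
    obtain ⟨l₁, l₂, rfl, rfl, rfl⟩ := List.map_eq_append_iff.1 h
    refine ⟨l₁, l₂, rfl, fun h => hu (by simp [h]), fun h => hv (by simp [h]), ?_⟩
    intro x hx y hy
    have := hlt (x + a) (List.mem_map.2 ⟨x, hx, rfl⟩) (y + a) (List.mem_map.2 ⟨y, hy, rfl⟩)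
    omega
  · rintro ⟨u, v, rfl, hu, hv, hlt⟩
    refine ⟨u.map (· + a), v.map (· + a), List.map_append, by simpa using hu, by simpa using hv, ?_⟩
    intro x hx y hy
    obtain ⟨x', hx', rfl⟩ := List.mem_map.1 hx
    obtain ⟨y', hy', rfl⟩ := List.mem_map.1 hy
    have := hlt x' hx' y' hy'
    show x' + a < y' + a
    omega

lemma ki_map (a : ℕ) (w : List ℕ) : KI (w.map (· + a)) ↔ KI w := by
  unfold KI
  rw [kd_map]
  simp

lemma uniq {U v U' v' : List ℕ} (h : U ++ v = U' ++ v') (h1 : lt v U) (h2 : lt v' U')
    (k1 : KI U) (k2 : KI U') : U = U' := by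
  rcases List.append_eq_append_iff.1 h with ⟨t, ht, hv⟩ | ⟨t, ht, hv⟩
  · by_cases h0 : t = []
    · simp [ht, h0]
    · exact absurd ⟨U, t, ht, k1.1, h0, fun x hx y hy => h1 x (by rw [hv]; simp [hx]) y hy⟩ k2.2
  · by_cases h0 : t = []
    · simp [ht, h0]
    · exact absurd ⟨U', t, ht, k2.1, h0, fun x hx y hy => h2 x (by rw [hv]; simp [hx]) y hy⟩ k1.2

lemma perm_shift {j m n : ℕ} (h : j + m = n) {u v : List ℕ} (hu : u.Perm (List.range j))
    (hv : v.Perm (List.range m)) : (u.map (· + m) ++ v).Perm (List.range n) := by
  have e : List.range n = List.range m ++ (List.range j).map (· + m) := by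
    rw [← h, Nat.add_comm j m, List.range_add]
    congr 1
    apply List.map_congr_left
    intro x _
    simp [Nat.add_comm]
  rw [e]
  exact ((hu.map _).append hv).trans List.perm_append_comm

lemma down {n : ℕ} {u v : List ℕ} (h : (u ++ v).Perm (List.range n)) (hlt : lt v u) :
    v.Perm (List.range v.length) := by
  have hnd : (u ++ v).Nodup := h.nodup_iff.2 List.nodup_range
  have hv : v.Nodup := (List.nodup_append.1 hnd).2.1
  have hdc : ∀ x ∈ v, ∀ y < x, y ∈ v := by
    intro x hx y hy
    have hxn : x < n := List.mem_range.1 (h.subset (by simp [hx]))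
    have : y ∈ u ++ v := h.symm.subset (List.mem_range.2 (by omega))
    rcases List.mem_append.1 this with h1 | h1
    · have := hlt x hx y h1
      omega
    · exact h1
  have hsub : v.toFinset = Finset.range v.length := by
    apply Finset.eq_of_subset_of_card_le
    · intro x hx
      rw [Finset.mem_range]
      have hx' : x ∈ v := List.mem_toFinset.1 hx
      have : Finset.range (x + 1) ⊆ v.toFinset := by
        intro y hy
        rw [Finset.mem_range] at hy
        rw [List.mem_toFinset]
        rcases Nat.lt_or_ge y x with h1 | h1
        · exact hdc x hx' y h1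
        · have : y = x := by omega
          rw [this]; exact hx'
      have hc := Finset.card_le_card this
      rw [Finset.card_range, List.toFinset_card_of_nodup hv] at hc
      omega
    · rw [Finset.card_range, List.toFinset_card_of_nodup hv]
  rw [List.perm_ext_iff_of_nodup hv List.nodup_range]
  intro x
  rw [← List.mem_toFinset, hsub, Finset.mem_range, List.mem_range]

end ModCVM

open ModCVM PowerSeries in
theorem cvm : StmtCVM := by
  classical
  intro P Q hP hQ hQ0
  ext n
  rw [PowerSeries.coeff_mul]
  simp only [gf, PowerSeries.coeff_mk]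
  have key : ((perms n).filter (fun w => ∃ u v, w = u ++ v ∧ lt v u ∧ (KI u ∧ P u) ∧ Q v)).card =
      ((Finset.HasAntidiagonal.antidiagonal n).sigma (fun p => ((perms p.1).filter (fun w => KI w ∧ P w)) ×ˢ
        ((perms p.2).filter Q))).card := by
    symm
    refine Finset.card_bij (fun x _ => x.2.1.map (· + x.1.2) ++ x.2.2) ?_ ?_ ?_
    · rintro ⟨⟨j, m⟩, ⟨u, v⟩⟩ hx
      simp only [Finset.mem_sigma, Finset.HasAntidiagonal.mem_antidiagonal, Finset.mem_product, Finset.mem_filter,
        mem_perms] at hx ⊢
      obtain ⟨hjm, ⟨hu, hk, hp⟩, hv, hq⟩ := hx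
      refine ⟨perm_shift hjm hu hv, u.map (· + m), v, rfl, ?_, ⟨(ki_map m u).2 hk, (hP u m).2 hp⟩, hq⟩
      intro x hx y hy
      obtain ⟨y', hy', rfl⟩ := List.mem_map.1 hy
      have := List.mem_range.1 (hv.subset hx)
      show x < y' + m
      omega
    · rintro ⟨⟨j, m⟩, ⟨u, v⟩⟩ hx ⟨⟨j', m'⟩, ⟨u', v'⟩⟩ hx' h
      simp only [Finset.mem_sigma, Finset.HasAntidiagonal.mem_antidiagonal, Finset.mem_product, Finset.mem_filter,
        mem_perms] at hx hx' h
      obtain ⟨hjm, ⟨hu, hk, hp⟩, hv, hq⟩ := hx
      obtain ⟨hjm', ⟨hu', hk', hp'⟩, hv', hq'⟩ := hx'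
      have l1 : lt v (u.map (· + m)) := by
        intro x hx y hy
        obtain ⟨y', hy', rfl⟩ := List.mem_map.1 hy
        have := List.mem_range.1 (hv.subset hx)
        show x < y' + m
        omega
      have l2 : lt v' (u'.map (· + m')) := by
        intro x hx y hy
        obtain ⟨y', hy', rfl⟩ := List.mem_map.1 hy
        have := List.mem_range.1 (hv'.subset hx)
        show x < y' + m'
        omega
      have e := uniq h l1 l2 ((ki_map m u).2 hk) ((ki_map m' u').2 hk')
      have e2 : v = v' := by
        rw [e] at h
        exact List.append_cancel_left h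
      have e3 : m = m' := by
        have h1 := hv.length_eq
        have h2 := hv'.length_eq
        rw [List.length_range] at h1 h2
        rw [← h1, ← h2, e2]
      subst e3
      subst e2
      have e4 : j = j' := by omega
      subst e4
      have e5 : u = u' := by
        exact (List.map_injective_iff.2
          (fun a b (hab : a + m = b + m) => Nat.add_right_cancel hab)) e
      subst e5
      rfl
    · intro w hw
      simp only [Finset.mem_filter, mem_perms] at hw
      obtain ⟨hw, u, v, rfl, hlt, ⟨hk, hp⟩, hq⟩ := hw
      have hd := down hw hlt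
      have hlen : u.length + v.length = n := by
        have := hw.length_eq
        rwa [List.length_append, List.length_range] at this
      have hu : u.Perm ((List.range u.length).map (· + v.length)) := by
        have e : List.range n = List.range v.length ++ (List.range u.length).map (· + v.length) := by
          rw [← hlen, Nat.add_comm u.length v.length, List.range_add]
          congr 1
          apply List.map_congr_left
          intro x _
          simp [Nat.add_comm]
        rw [e] at hw
        have h1 : (u ++ v).Perm ((List.range u.length).map (· + v.length) ++ v) :=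
          hw.trans ((hd.symm.append_right _).trans List.perm_append_comm)
        exact (List.perm_append_right_iff v).1 h1
      have hmap : (u.map (· - v.length)).map (· + v.length) = u := by
        rw [List.map_map]
        conv_rhs => rw [← List.map_id u]
        apply List.map_congr_left
        intro x hx
        obtain ⟨y, _, rfl⟩ := List.mem_map.1 (hu.subset hx)
        simp
      have hu' : (u.map (· - v.length)).Perm (List.range u.length) := by
        have h1 := hu.map (· - v.length)
        rw [List.map_map] at h1
        have h2 : List.map ((fun x => x - v.length) ∘ fun x => x + v.length)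
            (List.range u.length) = List.range u.length := by
          conv_rhs => rw [← List.map_id (List.range u.length)]
          apply List.map_congr_left
          intro x _
          simp
        rwa [h2] at h1
      refine ⟨⟨(u.length, v.length), (u.map (· - v.length), v)⟩, ?_, ?_⟩
      · simp only [Finset.mem_sigma, Finset.HasAntidiagonal.mem_antidiagonal, Finset.mem_product, Finset.mem_filter,
          mem_perms]
        refine ⟨hlen, ⟨hu', ?_, ?_⟩, hd, hq⟩
        · rw [← ki_map v.length, hmap]; exact hk
        · rw [← hP _ v.length, hmap]; exact hp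
      · show (u.map (· - v.length)).map (· + v.length) ++ v = u ++ v
        rw [hmap]
  rw [key, Finset.card_sigma]
  push_cast
  apply Finset.sum_congr rfl
  intro p _
  rw [Finset.card_product]
  push_cast
  congr

end Pool.Agent.T6.H99.RC
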