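import Pool.Agent.T6.H99.RC.Defs

/-!
Module CVP (helper60): the product formula for sums.
-/

set_option autoImplicit false

namespace Pool.Agent.T6.H99.RC

open PowerSeries

namespace ModCVP

theorem mem_perms {n : ℕ} {w : List ℕ} : w ∈ perms n ↔ w.Perm (List.range n) := by
  unfold perms
  rw [List.mem_toFinset, List.mem_permutations]

/-- the first sum indecomposable component is unique -/
theorem uniq {u V u' V' : List ℕ} (h : u ++ V = u' ++ V') (h1 : lt u V) (h2 : lt u' V')
    (h3 : SI u) (h4 : SI u') : u = u' ∧ V = V' := by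
  rcases List.append_eq_append_iff.1 h with ⟨a, ha, hV⟩ | ⟨a, ha, hV⟩
  · rcases eq_or_ne a [] with h0 | h0
    · subst h0
      rw [List.append_nil] at ha
      rw [List.nil_append] at hV
      exact ⟨ha.symm, hV⟩
    · exfalso
      refine h4.2 ⟨u, a, ha, h3.1, h0, ?_⟩
      intro x hx y hy
      exact h1 x hx y (by rw [hV]; exact List.mem_append_left _ hy)
  · rcases eq_or_ne a [] with h0 | h0
    · subst h0
      rw [List.append_nil] at ha
      rw [List.nil_append] at hV
      exact ⟨ha, hV.symm⟩
    · exfalso
      refine h3.2 ⟨u', a, ha, h4.1, h0, ?_⟩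
      intro x hx y hy
      exact h2 x hx y (by rw [hV]; exact List.mem_append_left _ hy)

/-- a prefix whose entries are smaller than the other entries -/
theorem split {n : ℕ} {u V : List ℕ} (h : (u ++ V).Perm (List.range n)) (h1 : lt u V) :
    u.length + V.length = n ∧ u.Perm (List.range u.length) ∧
    V = (V.map (· - u.length)).map (· + u.length) ∧
    (V.map (· - u.length)).Perm (List.range V.length) := by
  have hlen : u.length + V.length = n := by
    have := h.length_eq
    rwa [List.length_append, List.length_range] at this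
  have hnd : (u ++ V).Nodup := h.nodup_iff.2 List.nodup_range
  have hndu : u.Nodup := (List.nodup_append.1 hnd).1
  have hmem : ∀ b, b < n → b ∈ u ∨ b ∈ V := by
    intro b hb
    rw [← List.mem_append, h.mem_iff, List.mem_range]
    exact hb
  have hlt : ∀ b ∈ u ++ V, b < n := by
    intro b hb
    rwa [h.mem_iff, List.mem_range] at hb
  have hu : ∀ a ∈ u, a < u.length := by
    intro a ha
    have h2 : Finset.range (a + 1) ⊆ u.toFinset := by
      intro b hb
      rw [Finset.mem_range] at hb
      rw [List.mem_toFinset]
      have h3 := hlt a (List.mem_append_left _ ha)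
      rcases hmem b (by omega) with h4 | h4
      · exact h4
      · have := h1 a ha b h4
        omega
    have h3 := Finset.card_le_card h2
    rw [Finset.card_range, List.toFinset_card_of_nodup hndu] at h3
    omega
  have hperm : u.Perm (List.range u.length) := by
    have hsub : u ⊆ List.range u.length := fun a ha => List.mem_range.2 (hu a ha)
    have h2 := List.subperm_of_subset hndu hsub
    exact h2.perm_of_length_le (by rw [List.length_range])
  have hV : ∀ b ∈ V, u.length ≤ b := by
    intro b hb
    by_contra hlt'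
    push Not at hlt'
    have h2 : b ∈ u := by
      rw [hperm.mem_iff, List.mem_range]
      exact hlt'
    have := h1 b h2 b hb
    omega
  refine ⟨hlen, hperm, ?_, ?_⟩
  · rw [List.map_map]
    conv_lhs => rw [← List.map_id V]
    refine List.map_congr_left fun b hb => ?_
    have := hV b hb
    simp only [id, Function.comp]
    omega
  · have h2 : (u ++ V).Perm (List.range u.length ++ (List.range V.length).map (u.length + ·)) := by
      rw [← List.range_add, hlen]
      exact h
    have h3 : (u ++ V).Perm (u ++ (List.range V.length).map (u.length + ·)) :=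
      h2.trans (hperm.symm.append_right _)
    have h4 := (List.perm_append_left_iff u).1 h3
    have h5 := h4.map (· - u.length)
    rw [List.map_map] at h5
    have h6 : (List.range V.length).map ((· - u.length) ∘ (u.length + ·)) =
        List.range V.length := by
      conv_rhs => rw [← List.map_id (List.range V.length)]
      refine List.map_congr_left fun b _ => ?_
      simp only [id, Function.comp]
      omega
    rwa [h6] at h5

theorem glue {j m : ℕ} {u v : List ℕ} (hu : u.Perm (List.range j)) (hv : v.Perm (List.range m)) :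
    (u ++ v.map (· + j)).Perm (List.range (j + m)) ∧ lt u (v.map (· + j)) := by
  constructor
  · rw [List.range_add]
    refine hu.append ?_
    have h1 : (fun x : ℕ => j + x) = (· + j) := by
      funext x
      exact Nat.add_comm _ _
    rw [h1]
    exact hv.map _
  · intro a ha b hb
    rw [hu.mem_iff, List.mem_range] at ha
    rw [List.mem_map] at hb
    obtain ⟨c, -, rfl⟩ := hb
    omega

theorem count (P Q : List ℕ → Prop) (hQ : Inv Q) (n : ℕ)
    [DecidablePred fun w => ∃ u v, w = u ++ v ∧ lt u v ∧ (SI u ∧ P u) ∧ Q v]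
    [DecidablePred fun w => SI w ∧ P w] [DecidablePred Q] :
    ((perms n).filter fun w => ∃ u v, w = u ++ v ∧ lt u v ∧ (SI u ∧ P u) ∧ Q v).card =
      ∑ q ∈ Finset.HasAntidiagonal.antidiagonal n, ((perms q.1).filter fun w => SI w ∧ P w).card *
        ((perms q.2).filter Q).card := by
  symm
  have h0 : ∀ q ∈ Finset.HasAntidiagonal.antidiagonal n, ((perms q.1).filter fun w => SI w ∧ P w).card *
      ((perms q.2).filter Q).card = (((perms q.1).filter fun w => SI w ∧ P w) ×ˢ
      ((perms q.2).filter Q)).card := fun q _ => (Finset.card_product _ _).symm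
  rw [Finset.sum_congr rfl h0, ← Finset.card_sigma]
  refine Finset.card_nbij
    (fun t : (Σ _ : ℕ × ℕ, List ℕ × List ℕ) => t.2.1 ++ t.2.2.map (· + t.1.1)) ?_ ?_ ?_
  · rintro ⟨⟨j, m⟩, u, v⟩ ht
    rw [Finset.mem_coe, Finset.mem_sigma] at ht
    simp only [Finset.HasAntidiagonal.mem_antidiagonal, Finset.mem_product, Finset.mem_filter,
      mem_perms] at ht
    obtain ⟨hn, ⟨hu, hSI, hP⟩, hv, hq⟩ := ht
    have hg := glue hu hv
    rw [hn] at hg
    rw [Finset.mem_coe, Finset.mem_filter, mem_perms]
    exact ⟨hg.1, u, v.map (· + j), rfl, hg.2, ⟨hSI, hP⟩, (hQ v j).2 hq⟩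
  · rintro ⟨⟨j, m⟩, u, v⟩ ht ⟨⟨j', m'⟩, u', v'⟩ ht' he
    simp only [Finset.coe_sigma, Set.mem_sigma_iff, Finset.mem_coe, Finset.HasAntidiagonal.mem_antidiagonal,
      Finset.mem_product, Finset.mem_filter, mem_perms] at ht ht'
    obtain ⟨hn, ⟨hu, hSI, hP⟩, hv, hq⟩ := ht
    obtain ⟨hn', ⟨hu', hSI', hP'⟩, hv', hq'⟩ := ht'
    simp only at he
    obtain ⟨e1, e2⟩ := uniq he (glue hu hv).2 (glue hu' hv').2 hSI hSI'
    subst e1
    have hj : j = j' := by
      have h1 := hu.length_eq
      have h2 := hu'.length_eq
      rw [List.length_range] at h1 h2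
      omega
    subst hj
    have hm : m = m' := by omega
    subst hm
    have e3 : v = v' := (List.map_injective_iff.2 (add_left_injective j)) e2
    subst e3
    rfl
  · intro w hw
    simp only [Finset.coe_filter, Set.mem_ofPred_eq, mem_perms] at hw
    obtain ⟨hw, u, V, rfl, hlt, ⟨hSI, hP⟩, hq⟩ := hw
    obtain ⟨h1, h2, h3, h4⟩ := split hw hlt
    refine ⟨⟨(u.length, V.length), u, V.map (· - u.length)⟩, ?_, ?_⟩
    · simp only [Finset.coe_sigma, Set.mem_sigma_iff, Finset.mem_coe, Finset.HasAntidiagonal.mem_antidiagonal,
        Finset.mem_product, Finset.mem_filter, mem_perms]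
      refine ⟨h1, ⟨h2, hSI, hP⟩, h4, ?_⟩
      rw [← hQ _ u.length, ← h3]
      exact hq
    · show u ++ (V.map (· - u.length)).map (· + u.length) = u ++ V
      rw [← h3]

end ModCVP

open ModCVP in
/-- Module CVP. -/
theorem cvp : StmtCVP := by
  classical
  intro P Q _ hQ _
  ext n
  rw [PowerSeries.coeff_mul]
  unfold gf
  simp only [PowerSeries.coeff_mk]
  simp only [← Nat.cast_mul, ← Nat.cast_sum]
  have hc := @count P Q hQ n (Classical.decPred _) (Classical.decPred _) (Classical.decPred _)
  exact congrArg (Nat.cast : ℕ → ℤ) hc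

end Pool.Agent.T6.H99.RC
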