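import Pool.Agent.T6.H99.RC.Defs

/-! Module DEC of project RC (helper69 for helper99): a word without repetitions which avoids 2413
and 3142 is decomposable. -/

set_option autoImplicit false

namespace Pool.Agent.T6.H99.RC

namespace ModDEC

/-- decomposability for a general relation -/
def SDr (r : ℕ → ℕ → Prop) (w : List ℕ) : Prop :=
  ∃ u v, w = u ++ v ∧ u ≠ [] ∧ v ≠ [] ∧ ∀ a ∈ u, ∀ b ∈ v, r a b

theorem SD_iff (w : List ℕ) : SD w ↔ SDr (fun a b => a < b) w := Iff.rfl

theorem KD_iff (w : List ℕ) : KD w ↔ SDr (fun a b => b < a) w := by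
  constructor
  · rintro ⟨u, v, h, hu, hv, h1⟩
    exact ⟨u, v, h, hu, hv, fun a ha b hb => h1 b hb a ha⟩
  · rintro ⟨u, v, h, hu, hv, h1⟩
    exact ⟨u, v, h, hu, hv, fun a ha b hb => h1 b hb a ha⟩

theorem exists_min (r : ℕ → ℕ → Prop) (w : List ℕ) (h : SDr r w) :
    ∃ u t, w = u ++ t ∧ u ≠ [] ∧ t ≠ [] ∧ (∀ a ∈ u, ∀ b ∈ t, r a b) ∧
      ∀ u' t', w = u' ++ t' → u' ≠ [] → t' ≠ [] → (∀ a ∈ u', ∀ b ∈ t', r a b) →
        u.length ≤ u'.length := by
  classical
  have hex : ∃ k, ∃ u t : List ℕ, w = u ++ t ∧ u ≠ [] ∧ t ≠ [] ∧ (∀ a ∈ u, ∀ b ∈ t, r a b) ∧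
      u.length = k := by
    obtain ⟨u, t, h1, h2, h3, h4⟩ := h
    exact ⟨u.length, u, t, h1, h2, h3, h4, rfl⟩
  obtain ⟨u, t, h1, h2, h3, h4, h5⟩ := Nat.find_spec hex
  refine ⟨u, t, h1, h2, h3, h4, ?_⟩
  intro u' t' h1' h2' h3' h4'
  rw [h5]
  exact Nat.find_min' hex ⟨u', t', h1', h2', h3', h4', rfl⟩

theorem core (r : ℕ → ℕ → Prop) (htr : ∀ a b c, r a b → r b c → r a c)
    (htot : ∀ a b, a ≠ b → ¬ r a b → r b a) (hasy : ∀ a b, r a b → ¬ r b a)
    (w : List ℕ) (v : ℕ) (hnd : (w ++ [v]).Nodup)
    (hav : ∀ a b c d, [a, b, c, d].Sublist (w ++ [v]) → ¬ (r b d ∧ r d a ∧ r a c))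
    (h : SDr r w) : SDr r (w ++ [v]) ∨ SDr (fun a b => r b a) (w ++ [v]) := by
  classical
  have hne : ∀ a ∈ w, a ≠ v := by
    intro a ha hav'
    rw [List.nodup_append] at hnd
    exact hnd.2.2 a ha v (by simp) hav'
  obtain ⟨u, t, hw, hu, ht, hut, hmin⟩ := exists_min r w h
  by_cases h1 : ∀ a ∈ u, r a v
  · left
    refine ⟨u, t ++ [v], by rw [hw, List.append_assoc], hu, by simp, ?_⟩
    intro a ha b hb
    rw [List.mem_append, List.mem_singleton] at hb
    rcases hb with hb | hb
    · exact hut a ha b hb
    · rw [hb]; exact h1 a ha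
  by_cases h2 : ∀ a ∈ w, r v a
  · right
    refine ⟨w, [v], rfl, ?_, by simp, ?_⟩
    · rw [hw]; simp [hu]
    · intro a ha b hb
      rw [List.mem_singleton] at hb
      rw [hb]
      exact h2 a ha
  exfalso
  push Not at h1 h2
  obtain ⟨p, hp, hp1⟩ := h1
  obtain ⟨q, hq, hq1⟩ := h2
  have hpw : p ∈ w := by rw [hw]; exact List.mem_append_left _ hp
  have hvp : r v p := htot p v (hne p hpw) hp1
  have hqv : r q v := htot v q (hne q hq).symm hq1
  have hqu : q ∈ u := by
    rw [hw, List.mem_append] at hq
    rcases hq with hq | hq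
    · exact hq
    · exact absurd (htr v p q hvp (hut p hp q hq)) hq1
  obtain ⟨z, t', rfl⟩ := List.exists_cons_of_ne_nil ht
  set u1 := u.takeWhile (fun a => decide (r a v)) with hu1
  set u2 := u.dropWhile (fun a => decide (r a v)) with hu2
  have hu12 : u = u1 ++ u2 := (List.takeWhile_append_dropWhile).symm
  have hu1r : ∀ a ∈ u1, r a v := by
    intro a ha
    have := List.mem_takeWhile_imp ha
    simpa using this
  have hu2ne : u2 ≠ [] := by
    intro h0
    rw [h0, List.append_nil] at hu12
    rw [hu12] at hp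
    exact hp1 (hu1r p hp)
  obtain ⟨x, u3, hx3⟩ := List.exists_cons_of_ne_nil hu2ne
  have hxv : ¬ r x v := by
    have h0 := List.head_dropWhile_not (p := fun a => decide (r a v)) (l := u) (by
      rw [← hu2]; exact hu2ne)
    have h00 : (List.dropWhile (fun a => decide (r a v)) u).head (by
      rw [← hu2]; exact hu2ne) = x := by
      have : ∀ (l : List ℕ) (hl : l ≠ []), l = x :: u3 → l.head hl = x := by
        intro l hl hl2
        subst hl2
        rfl
      exact this _ _ (by rw [← hu2]; exact hx3)
    rw [h00] at h0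
    simpa using h0
  have hxu : x ∈ u := by rw [hu12, hx3]; simp
  have hxw : x ∈ w := by rw [hw]; exact List.mem_append_left _ hxu
  have hvx : r v x := htot x v (hne x hxw) hxv
  have hu2r : ∀ y ∈ u2, r v y := by
    intro y hy
    rw [hx3, List.mem_cons] at hy
    rcases hy with hy | hy
    · rw [hy]; exact hvx
    · by_contra hvy
      have hyu : y ∈ u := by rw [hu12, hx3]; simp [hy]
      have hyw : y ∈ w := by rw [hw]; exact List.mem_append_left _ hyu
      have hyv : r y v := htot v y (hne y hyw).symm hvy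
      refine hav x y z v ?_ ⟨hyv, hvx, hut x hxu z (by simp)⟩
      rw [hw, hu12, hx3]
      have e1 : [x, y].Sublist (u1 ++ x :: u3) := by
        refine List.Sublist.trans ?_ (List.sublist_append_right u1 _)
        exact List.Sublist.cons_cons x (List.singleton_sublist.2 hy)
      have e2 : [z].Sublist (z :: t') := List.singleton_sublist.2 (by simp)
      have e3 := (e1.append e2).append (List.Sublist.refl [v])
      simpa using e3
  have hu1ne : u1 ≠ [] := by
    intro h0
    rw [h0, List.nil_append] at hu12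
    rw [hu12] at hqu
    exact hasy q v hqv (hu2r q hqu)
  have hlen := hmin u1 (u2 ++ (z :: t')) (by rw [← List.append_assoc, ← hu12, hw]) hu1ne
    (by simp) (by
      intro a ha b hb
      rw [List.mem_append] at hb
      rcases hb with hb | hb
      · exact htr a v b (hu1r a ha) (hu2r b hb)
      · exact hut a (by rw [hu12]; exact List.mem_append_left _ ha) b hb)
  have hlen2 : u.length = u1.length + u2.length := by
    conv_lhs => rw [hu12]
    rw [List.length_append]
  have hlen3 : 0 < u2.length := List.length_pos_of_ne_nil hu2ne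
  omega

end ModDEC

open ModDEC in
theorem dec : StmtDEC := by
  intro w
  induction w using List.reverseRecOn with
  | nil => intro _ h; simp at h
  | append_singleton l v ih =>
    intro hnd hlen h1 h2
    have hsub : l.Sublist (l ++ [v]) := List.sublist_append_left l [v]
    rw [List.length_append, List.length_singleton] at hlen
    by_cases hl : 2 ≤ l.length
    · have h3 := ih (hnd.sublist hsub) hl (fun a b c d h => h1 a b c d (h.trans hsub))
        (fun a b c d h => h2 a b c d (h.trans hsub))
      rcases h3 with h3 | h3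
      · rw [SD_iff] at h3
        have h4 := core (fun a b => a < b) (fun a b c => lt_trans)
          (fun a b hab h => lt_of_le_of_ne (not_lt.1 h) hab.symm) (fun a b h => not_lt.2 h.le)
          l v hnd h2 h3
        rcases h4 with h4 | h4
        · left; exact (SD_iff _).2 h4
        · right; exact (KD_iff _).2 h4
      · rw [KD_iff] at h3
        have h4 := core (fun a b => b < a) (fun a b c h h' => lt_trans h' h)
          (fun a b hab h => lt_of_le_of_ne (not_lt.1 h) hab) (fun a b h => not_lt.2 h.le)
          l v hnd (fun a b c d h hh => h1 a b c d h ⟨hh.2.2, hh.2.1, hh.1⟩) h3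
        rcases h4 with h4 | h4
        · right; exact (KD_iff _).2 h4
        · left; exact (SD_iff _).2 h4
    · have hl1 : l.length = 1 := by omega
      obtain ⟨a, rfl⟩ := List.length_eq_one_iff.1 hl1
      have hne : a ≠ v := by
        intro h
        rw [h] at hnd
        simp at hnd
      rcases lt_or_gt_of_ne hne with h | h
      · left
        exact ⟨[a], [v], rfl, by simp, by simp, by
          intro x hx y hy
          rw [List.mem_singleton] at hx hy
          rw [hx, hy]; exact h⟩
      · right
        exact ⟨[a], [v], rfl, by simp, by simp, by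
          intro x hx y hy
          rw [List.mem_singleton] at hx hy
          rw [hx, hy]; exact h⟩

end Pool.Agent.T6.H99.RC
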