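import Pool.Agent.T6.H99.RC.Defs

/-!
# Project RC, module FB (helper29): a union of two finitely based classes is finitely based
-/

set_option autoImplicit false

namespace Pool.Agent.T6.H99.RC

namespace ModFB

theorem trans {n k l : ℕ} {π : Equiv.Perm (Fin n)} {σ : Equiv.Perm (Fin k)}
    {τ : Equiv.Perm (Fin l)} (h1 : Contains π σ) (h2 : Contains σ τ) : Contains π τ := by
  obtain ⟨f, hf, h⟩ := h1
  obtain ⟨g, hg, h'⟩ := h2
  exact ⟨f ∘ g, hf.comp hg, fun i j => (h' i j).trans (h _ _)⟩

/-- standardisation -/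
theorem std {n k : ℕ} (h : Fin k → Fin n) (hh : Function.Injective h) :
    ∃ σ : Equiv.Perm (Fin k), ∀ i j, σ i < σ j ↔ h i < h j := by
  have hc : (Finset.univ.image h).card = k := by
    rw [Finset.card_image_of_injective _ hh, Finset.card_univ, Fintype.card_fin]
  let e := (Finset.univ.image h).orderIsoOfFin hc
  have hm : ∀ i, h i ∈ Finset.univ.image h := fun i => Finset.mem_image_of_mem _ (Finset.mem_univ i)
  let s : Fin k → Fin k := fun i => e.symm ⟨h i, hm i⟩
  have hs : Function.Injective s := by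
    intro i j hij
    have := e.symm.injective hij
    exact hh (congrArg Subtype.val this)
  refine ⟨Equiv.ofBijective s (Finite.injective_iff_bijective.1 hs), fun i j => ?_⟩
  change s i < s j ↔ _
  rw [e.symm.lt_iff_lt]
  rfl

theorem factor {n k l : ℕ} {π : Equiv.Perm (Fin n)} {τ : Equiv.Perm (Fin l)} {f : Fin l → Fin n}
    (hf : StrictMono f) (hc : ∀ i j, τ i < τ j ↔ π (f i) < π (f j)) (g : Fin k ↪o Fin n)
    (hg : ∀ i, ∃ m, g m = f i) (σ : Equiv.Perm (Fin k))
    (hσ : ∀ i j, σ i < σ j ↔ π (g i) < π (g j)) : Contains σ τ := by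
  choose m hm using hg
  refine ⟨m, fun i j hij => ?_, fun i j => ?_⟩
  · rw [← g.lt_iff_lt, hm, hm]; exact hf hij
  · rw [hσ, hm, hm]; exact hc i j

end ModFB

open ModFB Classical in
theorem fb : StmtFB := by
  intro B₁ B₂
  set N := B₁.sup (fun b => b.1) + B₂.sup (fun b => b.1) with hN
  let U : Finset (Σ k, Equiv.Perm (Fin k)) := (Finset.range (N + 1)).sigma fun _ => Finset.univ
  refine ⟨U.filter fun β => (∃ b ∈ B₁, Contains β.2 b.2) ∧ (∃ b ∈ B₂, Contains β.2 b.2), ?_⟩
  intro n π
  constructor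
  · rintro (h | h) β hβ hc
    · obtain ⟨b, hb, hbc⟩ := (Finset.mem_filter.1 hβ).2.1
      exact h b hb (trans hc hbc)
    · obtain ⟨b, hb, hbc⟩ := (Finset.mem_filter.1 hβ).2.2
      exact h b hb (trans hc hbc)
  · intro h
    by_contra hcon
    push Not at hcon
    obtain ⟨⟨b1, hb1, f1, hf1, hc1⟩, ⟨b2, hb2, f2, hf2, hc2⟩⟩ := hcon
    set S : Finset (Fin n) := Finset.univ.image f1 ∪ Finset.univ.image f2 with hS
    have hcard : S.card ≤ N := by
      refine (Finset.card_union_le _ _).trans (Nat.add_le_add ?_ ?_)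
      · refine Finset.card_image_le.trans ?_
        rw [Finset.card_univ, Fintype.card_fin]
        exact Finset.le_sup (f := fun b : (Σ k, Equiv.Perm (Fin k)) => b.1) hb1
      · refine Finset.card_image_le.trans ?_
        rw [Finset.card_univ, Fintype.card_fin]
        exact Finset.le_sup (f := fun b : (Σ k, Equiv.Perm (Fin k)) => b.1) hb2
    let g : Fin S.card ↪o Fin n := S.orderEmbOfFin rfl
    have hr : ∀ x ∈ S, ∃ m, g m = x := by
      intro x hx
      have : x ∈ Set.range g := by rw [Finset.range_orderEmbOfFin]; exact hx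
      exact this
    obtain ⟨σ, hσ⟩ := std (fun i => π (g i)) (π.injective.comp g.injective)
    refine h ⟨S.card, σ⟩ (Finset.mem_filter.2 ⟨?_, ⟨b1, hb1, ?_⟩, ⟨b2, hb2, ?_⟩⟩)
      ⟨g, g.strictMono, hσ⟩
    · exact Finset.mem_sigma.2 ⟨Finset.mem_range.2 (Nat.lt_succ_of_le hcard), Finset.mem_univ _⟩
    · exact factor hf1 hc1 g (fun i => hr _ (Finset.mem_union_left _
        (Finset.mem_image_of_mem _ (Finset.mem_univ i)))) σ hσ
    · exact factor hf2 hc2 g (fun i => hr _ (Finset.mem_union_right _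
        (Finset.mem_image_of_mem _ (Finset.mem_univ i)))) σ hσ

end Pool.Agent.T6.H99.RC
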