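import Pool.Agent.T6.H99.RC.Defs

/-!
Project RC, module FST: a word is not both sum and skew decomposable; the first component.
-/

set_option autoImplicit false

namespace Pool.Agent.T6.H99.RC

namespace ModFST

/-- the general form of the existence of the first component for a relation `R` -/
theorem first (R : List ℕ → List ℕ → Prop)
    (hR : ∀ a b v, R a b → R (a ++ b) v → R a (b ++ v)) (w : List ℕ) :
    (∃ u v, w = u ++ v ∧ u ≠ [] ∧ v ≠ [] ∧ R u v) ↔
      ∃ u v, w = u ++ v ∧ v ≠ [] ∧ R u v ∧ u ≠ [] ∧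
        ¬ ∃ a b, u = a ++ b ∧ a ≠ [] ∧ b ≠ [] ∧ R a b := by
  constructor
  · rintro ⟨u, v, hw, hu, hv, h⟩
    induction hn : u.length using Nat.strong_induction_on generalizing u v with
    | _ m ih =>
      by_cases hd : ∃ a b, u = a ++ b ∧ a ≠ [] ∧ b ≠ [] ∧ R a b
      · obtain ⟨a, b, rfl, ha, hb, hab⟩ := hd
        refine ih a.length ?_ a (b ++ v) (by rw [hw, List.append_assoc]) ha
          (by simp [hb]) (hR a b v hab h) rfl
        rw [← hn, List.length_append]
        have := List.length_pos_iff.2 hb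
        omega
      · exact ⟨u, v, hw, hv, h, hu, hd⟩
  · rintro ⟨u, v, hw, hv, h, hu, -⟩
    exact ⟨u, v, hw, hu, hv, h⟩

end ModFST

open ModFST in
theorem fst : StmtFST := by
  refine ⟨?_, ?_, ?_⟩
  · rintro w ⟨⟨u, v, hw, hu, hv, h⟩, u', v', hw', hu', hv', h'⟩
    have h1 : u.head hu = u'.head hu' := by
      have e1 : (u ++ v).head (by simp [hu]) = u.head hu := List.head_append_of_ne_nil hu
      have e2 : (u' ++ v').head (by simp [hu']) = u'.head hu' := List.head_append_of_ne_nil hu'
      rw [← e1, ← e2]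
      congr 1
      rw [← hw, ← hw']
    have h2 : v.getLast hv = v'.getLast hv' := by
      have e1 : (u ++ v).getLast (by simp [hu]) = v.getLast hv :=
        List.getLast_append_of_ne_nil _ hv
      have e2 : (u' ++ v').getLast (by simp [hu']) = v'.getLast hv' :=
        List.getLast_append_of_ne_nil _ hv'
      rw [← e1, ← e2]
      congr 1
      rw [← hw, ← hw']
    have h3 := h _ (List.head_mem hu) _ (List.getLast_mem hv)
    have h4 := h' _ (List.getLast_mem hv') _ (List.head_mem hu')
    rw [← h1, ← h2] at h4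
    omega
  · intro w
    refine (first lt ?_ w).trans ⟨?_, ?_⟩
    · intro a b v h1 h2 x hx y hy
      rcases List.mem_append.1 hy with hy | hy
      · exact h1 x hx y hy
      · exact h2 x (List.mem_append_left _ hx) y hy
    · rintro ⟨u, v, hw, hv, h, hu, hd⟩
      exact ⟨u, v, hw, hv, h, hu, hd⟩
    · rintro ⟨u, v, hw, hv, h, hu, hd⟩
      exact ⟨u, v, hw, hv, h, hu, hd⟩
  · intro w
    refine (first (fun u v => lt v u) ?_ w).trans ⟨?_, ?_⟩
    · intro a b v h1 h2 x hx y hy
      rcases List.mem_append.1 hx with hx | hx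
      · exact h1 x hx y hy
      · exact h2 x hx y (List.mem_append_left _ hy)
    · rintro ⟨u, v, hw, hv, h, hu, hd⟩
      exact ⟨u, v, hw, hv, h, hu, hd⟩
    · rintro ⟨u, v, hw, hv, h, hu, hd⟩
      exact ⟨u, v, hw, hv, h, hu, hd⟩

end Pool.Agent.T6.H99.RC
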