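import Pool.Agent.T6.H99.RC.Defs

/-!
# Module IMP: implications between avoidance properties
-/

set_option autoImplicit false

namespace Pool.Agent.T6.H99.RC

namespace ModIMP

lemma s123 (a b c d : ℕ) : [a, b, c].Sublist [a, b, c, d] := List.sublist_append_left [a, b, c] [d]
lemma s234 (a b c d : ℕ) : [b, c, d].Sublist [a, b, c, d] := List.sublist_cons_self a _
lemma s134 (a b c d : ℕ) : [a, c, d].Sublist [a, b, c, d] :=
  List.Sublist.cons_cons a (List.sublist_cons_self b _)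
lemma s124 (a b c d : ℕ) : [a, b, d].Sublist [a, b, c, d] :=
  List.Sublist.cons_cons a (List.Sublist.cons_cons b (List.sublist_cons_self c _))
lemma s1345 (a b c d e : ℕ) : [a, c, d, e].Sublist [a, b, c, d, e] :=
  List.Sublist.cons_cons a (List.sublist_cons_self b _)
lemma s1234 (a b c d e : ℕ) : [a, b, c, d].Sublist [a, b, c, d, e] :=
  List.sublist_append_left [a, b, c, d] [e]
lemma s12 (a b c : ℕ) : [a, b].Sublist [a, b, c] := List.sublist_append_left [a, b] [c]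
lemma s23 (a b c : ℕ) : [b, c].Sublist [a, b, c] := List.sublist_cons_self a _

end ModIMP

open ModIMP in
theorem imp : StmtIMP := by
  intro w
  refine ⟨fun h => ⟨?_, ?_, ?_, ?_⟩, fun h => ⟨?_, ?_, ?_, ?_⟩, fun h => ?_, fun h => ?_,
    fun h => ⟨?_, ?_⟩, fun h => ⟨?_, ?_⟩⟩
  · rintro a b c d hs ⟨h1, h2, h3⟩
    exact h a b c ((s123 a b c d).trans hs) ⟨h1, by omega⟩
  · rintro a b c d hs ⟨h1, h2, h3⟩
    exact h a c d ((s134 a b c d).trans hs) ⟨h2, h3⟩
  · rintro a b c d hs ⟨h1, h2, h3⟩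
    exact h b c d ((s234 a b c d).trans hs) ⟨h2, h3⟩
  · rintro a b c d hs ⟨h1, h2, h3⟩
    exact h a b d ((s124 a b c d).trans hs) ⟨h1, by omega⟩
  · rintro a b c d hs ⟨h1, h2, h3⟩
    exact h a b d ((s124 a b c d).trans hs) ⟨h2, h3⟩
  · rintro a b c d hs ⟨h1, h2, h3⟩
    exact h b c d ((s234 a b c d).trans hs) ⟨h1, by omega⟩
  · rintro a b c d hs ⟨h1, h2, h3⟩
    exact h a b d ((s124 a b c d).trans hs) ⟨h1, h2⟩
  · rintro a b c d hs ⟨h1, h2, h3⟩
    exact h a b c ((s123 a b c d).trans hs) ⟨h2, h3⟩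
  · rintro a b c d e hs ⟨h1, h2, h3, h4⟩
    exact h a c d e ((s1345 a b c d e).trans hs) ⟨by omega, h3, h4⟩
  · rintro a b c d e hs ⟨h1, h2, h3, h4⟩
    exact h a b c d ((s1234 a b c d e).trans hs) ⟨h2, h3, h4⟩
  · rintro a b c hs ⟨h1, h2⟩
    exact h a b ((s12 a b c).trans hs) (by omega)
  · rintro a b c hs ⟨h1, h2⟩
    exact h a b ((s12 a b c).trans hs) h2
  · rintro a b c hs ⟨h1, h2⟩
    exact h b c ((s23 a b c).trans hs) h2
  · rintro a b c hs ⟨h1, h2⟩
    exact h b c ((s23 a b c).trans hs) (by omega)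

end Pool.Agent.T6.H99.RC
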