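import Pool.Agent.T6.H99.RC.Defs

/-!
# Module INV: shift invariance
-/

set_option autoImplicit false

namespace Pool.Agent.T6.H99.RC

namespace ModINV

lemma i2 (R : ℕ → ℕ → Prop) (hR : ∀ k a b, R (a + k) (b + k) ↔ R a b) (w : List ℕ) (k : ℕ) :
    (∀ a b, [a, b].Sublist (w.map (· + k)) → ¬ R a b) ↔ (∀ a b, [a, b].Sublist w → ¬ R a b) := by
  constructor
  · intro h a b hs hr
    exact h (a + k) (b + k) (hs.map (· + k)) ((hR k a b).2 hr)
  · intro h x y hs hr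
    obtain ⟨l, hl, he⟩ := List.sublist_map_iff.1 hs
    rcases l with _ | ⟨a, _ | ⟨b, _ | ⟨c, l⟩⟩⟩ <;> simp at he
    obtain ⟨h1, h2⟩ := he
    subst h1 h2
    exact h a b hl ((hR k a b).1 hr)

lemma i3 (R : ℕ → ℕ → ℕ → Prop) (hR : ∀ k a b c, R (a + k) (b + k) (c + k) ↔ R a b c)
    (w : List ℕ) (k : ℕ) :
    (∀ a b c, [a, b, c].Sublist (w.map (· + k)) → ¬ R a b c) ↔
      (∀ a b c, [a, b, c].Sublist w → ¬ R a b c) := by
  constructor
  · intro h a b c hs hr
    exact h (a + k) (b + k) (c + k) (hs.map (· + k)) ((hR k a b c).2 hr)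
  · intro h x y z hs hr
    obtain ⟨l, hl, he⟩ := List.sublist_map_iff.1 hs
    rcases l with _ | ⟨a, _ | ⟨b, _ | ⟨c, _ | ⟨d, l⟩⟩⟩⟩ <;> simp at he
    obtain ⟨h1, h2, h3⟩ := he
    subst h1 h2 h3
    exact h a b c hl ((hR k a b c).1 hr)

lemma i4 (R : ℕ → ℕ → ℕ → ℕ → Prop)
    (hR : ∀ k a b c d, R (a + k) (b + k) (c + k) (d + k) ↔ R a b c d)
    (w : List ℕ) (k : ℕ) :
    (∀ a b c d, [a, b, c, d].Sublist (w.map (· + k)) → ¬ R a b c d) ↔
      (∀ a b c d, [a, b, c, d].Sublist w → ¬ R a b c d) := by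
  constructor
  · intro h a b c d hs hr
    exact h (a + k) (b + k) (c + k) (d + k) (hs.map (· + k)) ((hR k a b c d).2 hr)
  · intro h x y z t hs hr
    obtain ⟨l, hl, he⟩ := List.sublist_map_iff.1 hs
    rcases l with _ | ⟨a, _ | ⟨b, _ | ⟨c, _ | ⟨d, _ | ⟨e, l⟩⟩⟩⟩⟩ <;> simp at he
    obtain ⟨h1, h2, h3, h4⟩ := he
    subst h1 h2 h3 h4
    exact h a b c d hl ((hR k a b c d).1 hr)

lemma i5 (R : ℕ → ℕ → ℕ → ℕ → ℕ → Prop)
    (hR : ∀ k a b c d e, R (a + k) (b + k) (c + k) (d + k) (e + k) ↔ R a b c d e)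
    (w : List ℕ) (k : ℕ) :
    (∀ a b c d e, [a, b, c, d, e].Sublist (w.map (· + k)) → ¬ R a b c d e) ↔
      (∀ a b c d e, [a, b, c, d, e].Sublist w → ¬ R a b c d e) := by
  constructor
  · intro h a b c d e hs hr
    exact h (a + k) (b + k) (c + k) (d + k) (e + k) (hs.map (· + k)) ((hR k a b c d e).2 hr)
  · intro h x y z t u hs hr
    obtain ⟨l, hl, he⟩ := List.sublist_map_iff.1 hs
    rcases l with _ | ⟨a, _ | ⟨b, _ | ⟨c, _ | ⟨d, _ | ⟨e, _ | ⟨f, l⟩⟩⟩⟩⟩⟩ <;> simp at he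
    obtain ⟨h1, h2, h3, h4, h5⟩ := he
    subst h1 h2 h3 h4 h5
    exact h a b c d e hl ((hR k a b c d e).1 hr)

lemma lt_map (u v : List ℕ) (k : ℕ) : lt (u.map (· + k)) (v.map (· + k)) ↔ lt u v := by
  unfold lt
  constructor
  · intro h a ha b hb
    have := h (a + k) (List.mem_map_of_mem (f := (· + k)) ha) (b + k)
      (List.mem_map_of_mem (f := (· + k)) hb)
    omega
  · intro h x hx y hy
    obtain ⟨a, ha, rfl⟩ := List.mem_map.1 hx
    obtain ⟨b, hb, rfl⟩ := List.mem_map.1 hy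
    have := h a ha b hb
    show a + k < b + k
    omega

lemma sd_map (w : List ℕ) (k : ℕ) : SD (w.map (· + k)) ↔ SD w := by
  unfold SD
  constructor
  · rintro ⟨u, v, h, hu, hv, hlt⟩
    obtain ⟨u', v', h1, h2, h3⟩ := List.map_eq_append_iff.1 h
    subst h2 h3
    refine ⟨u', v', h1, ?_, ?_, (lt_map _ _ k).1 hlt⟩
    · rintro rfl; exact hu rfl
    · rintro rfl; exact hv rfl
  · rintro ⟨u, v, h, hu, hv, hlt⟩
    refine ⟨u.map (· + k), v.map (· + k), ?_, ?_, ?_, (lt_map _ _ k).2 hlt⟩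
    · rw [h, List.map_append]
    · simpa using hu
    · simpa using hv

lemma kd_map (w : List ℕ) (k : ℕ) : KD (w.map (· + k)) ↔ KD w := by
  unfold KD
  constructor
  · rintro ⟨u, v, h, hu, hv, hlt⟩
    obtain ⟨u', v', h1, h2, h3⟩ := List.map_eq_append_iff.1 h
    subst h2 h3
    refine ⟨u', v', h1, ?_, ?_, (lt_map _ _ k).1 hlt⟩
    · rintro rfl; exact hu rfl
    · rintro rfl; exact hv rfl
  · rintro ⟨u, v, h, hu, hv, hlt⟩
    refine ⟨u.map (· + k), v.map (· + k), ?_, ?_, ?_, (lt_map _ _ k).2 hlt⟩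
    · rw [h, List.map_append]
    · simpa using hu
    · simpa using hv

end ModINV

open ModINV in
theorem inv : StmtINV := by
  refine ⟨fun w k => i2 _ (by intros; omega) w k, fun w k => i2 _ (by intros; omega) w k,
    fun w k => i3 _ (by intros; omega) w k, fun w k => i3 _ (by intros; omega) w k,
    fun w k => i4 _ (by intros; omega) w k, fun w k => i4 _ (by intros; omega) w k,
    fun w k => i4 _ (by intros; omega) w k, fun w k => i4 _ (by intros; omega) w k,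
    fun w k => i5 _ (by intros; omega) w k, fun w k => i5 _ (by intros; omega) w k,
    fun w k => ?_, fun w k => ?_, fun w k => ?_⟩
  · unfold SI
    rw [sd_map]
    simp
  · unfold KI
    rw [kd_map]
    simp
  · simp

end Pool.Agent.T6.H99.RC
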