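import Pool.Agent.T6.H99.RC.Defs

/-!
# Module MON: words with one entry, decreasing and increasing words
-/

set_option autoImplicit false

namespace Pool.Agent.T6.H99.RC

open PowerSeries

namespace ModMON

lemma mem_perms {n : ℕ} {w : List ℕ} : w ∈ perms n ↔ w.Perm (List.range n) := by
  unfold perms
  rw [List.mem_toFinset, List.mem_permutations]

lemma pair_sub {u v : List ℕ} {a b : ℕ} (ha : a ∈ u) (hb : b ∈ v) : [a, b].Sublist (u ++ v) :=
  (List.singleton_sublist.2 ha).append (List.singleton_sublist.2 hb)

lemma gt_of_av12 {w : List ℕ} (hn : w.Nodup) (h : av12 w) : w.Pairwise (fun a b => b < a) := by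
  rw [List.pairwise_iff_forall_sublist]
  intro a b hs
  have h1 := h a b hs
  have h2 : a ≠ b := by
    have := hn.sublist hs
    simpa using this
  omega

lemma lt_of_av21 {w : List ℕ} (hn : w.Nodup) (h : av21 w) : w.Pairwise (fun a b => a < b) := by
  rw [List.pairwise_iff_forall_sublist]
  intro a b hs
  have h1 := h a b hs
  have h2 : a ≠ b := by
    have := hn.sublist hs
    simpa using this
  omega

open Classical in
lemma coeff_one (P : List ℕ → Prop) (n : ℕ) (w₀ : List ℕ)
    (h : ∀ w, (w.Perm (List.range n) ∧ P w) ↔ w = w₀) : PowerSeries.coeff n (gf P) = 1 := by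
  unfold gf
  rw [PowerSeries.coeff_mk]
  have : (perms n).filter P = {w₀} := by
    ext w
    simp only [Finset.mem_filter, mem_perms, Finset.mem_singleton]
    exact h w
  rw [this]
  simp

open Classical in
lemma coeff_none (P : List ℕ → Prop) (n : ℕ)
    (h : ∀ w, w.Perm (List.range n) → ¬ P w) : PowerSeries.coeff n (gf P) = 0 := by
  unfold gf
  rw [PowerSeries.coeff_mk]
  have : (perms n).filter P = ∅ := by
    ext w
    simp only [Finset.mem_filter, mem_perms, Finset.notMem_empty, iff_false, not_and]
    exact h w
  rw [this]
  simp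

lemma one_sub (P : List ℕ → Prop) (f : ℕ → List ℕ)
    (h : ∀ n, n ≠ 0 → ∀ w, (w.Perm (List.range n) ∧ P w) ↔ w = f n)
    (h0 : ∀ w : List ℕ, w.Perm (List.range 0) → ¬ P w) :
    (1 - X) * gf P = (X : ℤ⟦X⟧) := by
  have hg : ∀ n, n ≠ 0 → PowerSeries.coeff n (gf P) = 1 := fun n hn =>
    coeff_one P n (f n) (h n hn)
  have hg0 : PowerSeries.coeff 0 (gf P) = 0 := coeff_none P 0 h0
  ext n
  rw [sub_mul, one_mul, map_sub]
  rcases n with _ | n
  · rw [hg0]
    simp
  · rw [PowerSeries.coeff_succ_X_mul, hg (n + 1) (by omega)]
    rcases n with _ | n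
    · rw [hg0]
      simp
    · rw [hg (n + 1) (by omega), PowerSeries.coeff_X]
      simp

end ModMON

open ModMON in
theorem mon : StmtMON := by
  refine ⟨?_, ?_, ?_, ?_, ?_, ?_, ?_⟩
  · ext n
    rw [PowerSeries.coeff_X]
    by_cases hn : n = 1
    · subst hn
      rw [if_pos rfl]
      apply coeff_one _ _ [0]
      intro w
      constructor
      · rintro ⟨h1, -⟩
        simpa [List.range_succ] using h1
      · rintro rfl
        simp [List.range_succ]
    · rw [if_neg hn]
      apply coeff_none
      intro w h1 h2
      have := h1.length_eq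
      rw [List.length_range] at this
      omega
  · apply one_sub _ (fun n => (List.range n).reverse)
    · intro n hn w
      constructor
      · rintro ⟨h1, h2, h3⟩
        have hnd : w.Nodup := h1.nodup_iff.2 List.nodup_range
        have hp : w.Perm (List.range n).reverse := h1.trans (List.reverse_perm _).symm
        have hs := gt_of_av12 hnd h3
        have hs' : (List.range n).reverse.Pairwise (fun a b => b < a) := by
          rw [List.pairwise_reverse]
          exact List.pairwise_lt_range
        exact List.Perm.eq_of_pairwise (fun a b _ _ h1 h2 => by omega) hs hs' hp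
      · rintro rfl
        refine ⟨List.reverse_perm _, ?_, ?_⟩
        · intro h
          have := congrArg List.length h
          simp at this
          exact hn this
        · intro a b hs hlt
          have hs' : (List.range n).reverse.Pairwise (fun a b => b < a) := by
            rw [List.pairwise_reverse]
            exact List.pairwise_lt_range
          have := List.pairwise_iff_forall_sublist.1 hs' hs
          omega
    · rintro w h1 ⟨h2, h3⟩
      exact absurd (by simpa using h1) h2
  · apply one_sub _ (fun n => List.range n)
    · intro n hn w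
      constructor
      · rintro ⟨h1, h2, h3⟩
        have hnd : w.Nodup := h1.nodup_iff.2 List.nodup_range
        have hs := lt_of_av21 hnd h3
        have hs' : (List.range n).Pairwise (fun a b => a < b) := List.pairwise_lt_range
        exact List.Perm.eq_of_pairwise (fun a b _ _ h1 h2 => by omega) hs hs' h1
      · rintro rfl
        refine ⟨List.Perm.refl _, ?_, ?_⟩
        · intro h
          have := congrArg List.length h
          simp at this
          exact hn this
        · intro a b hs hlt
          have hs' : (List.range n).Pairwise (fun a b => a < b) := List.pairwise_lt_range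
          have := List.pairwise_iff_forall_sublist.1 hs' hs
          omega
    · rintro w h1 ⟨h2, h3⟩
      exact absurd (by simpa using h1) h2
  · intro w hw h
    refine ⟨hw, ?_⟩
    rintro ⟨u, v, rfl, hu, hv, hlt⟩
    obtain ⟨a, ha⟩ := List.exists_mem_of_ne_nil u hu
    obtain ⟨b, hb⟩ := List.exists_mem_of_ne_nil v hv
    exact h a b (pair_sub ha hb) (hlt a ha b hb)
  · intro w hw h
    refine ⟨hw, ?_⟩
    rintro ⟨u, v, rfl, hu, hv, hlt⟩
    obtain ⟨a, ha⟩ := List.exists_mem_of_ne_nil u hu
    obtain ⟨b, hb⟩ := List.exists_mem_of_ne_nil v hv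
    exact h a b (pair_sub ha hb) (hlt b hb a ha)
  · rintro w hn h ⟨hw, hk⟩
    have hs := gt_of_av12 hn h
    rcases w with _ | ⟨a, _ | ⟨b, t⟩⟩
    · exact absurd rfl hw
    · rfl
    · exfalso
      apply hk
      refine ⟨[a], b :: t, rfl, by simp, by simp, ?_⟩
      intro x hx y hy
      rw [List.mem_singleton] at hy
      subst hy
      exact (List.pairwise_cons.1 hs).1 x hx
  · rintro w hn h ⟨hw, hk⟩
    have hs := lt_of_av21 hn h
    rcases w with _ | ⟨a, _ | ⟨b, t⟩⟩
    · exact absurd rfl hw
    · rfl
    · exfalso
      apply hk
      refine ⟨[a], b :: t, rfl, by simp, by simp, ?_⟩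
      intro x hx y hy
      rw [List.mem_singleton] at hx
      subst hx
      exact (List.pairwise_cons.1 hs).1 y hy

end Pool.Agent.T6.H99.RC
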