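import Pool.Agent.T6.H99.RC.Defs

set_option autoImplicit false

namespace Pool.Agent.T6.H99.RC

namespace ModSPM

theorem sp2 {a b : ℕ} {u v : List ℕ} (h : [a, b].Sublist (u ++ v)) :
    [a, b].Sublist v ∨ (a ∈ u ∧ b ∈ v) ∨ [a, b].Sublist u := by
  rw [List.sublist_append_iff] at h
  obtain ⟨l1, l2, h, h1, h2⟩ := h
  rcases l1 with _ | ⟨x, _ | ⟨y, l⟩⟩
  · simp only [List.nil_append] at h
    subst h
    exact Or.inl h2
  · simp only [List.cons_append, List.nil_append, List.cons.injEq] at h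
    obtain ⟨rfl, rfl⟩ := h
    exact Or.inr (Or.inl ⟨List.singleton_sublist.1 h1, List.singleton_sublist.1 h2⟩)
  · simp only [List.cons_append, List.cons.injEq, List.nil_eq, List.append_eq_nil_iff] at h
    obtain ⟨rfl, rfl, rfl, rfl⟩ := h
    exact Or.inr (Or.inr h1)

theorem sp3 {a b c : ℕ} {u v : List ℕ} (h : [a, b, c].Sublist (u ++ v)) :
    [a, b, c].Sublist v ∨ (a ∈ u ∧ [b, c].Sublist v) ∨ ([a, b].Sublist u ∧ c ∈ v) ∨
      [a, b, c].Sublist u := by
  rw [List.sublist_append_iff] at h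
  obtain ⟨l1, l2, h, h1, h2⟩ := h
  rcases l1 with _ | ⟨x, _ | ⟨y, _ | ⟨z, l⟩⟩⟩
  · simp only [List.nil_append] at h
    subst h
    exact Or.inl h2
  · simp only [List.cons_append, List.nil_append, List.cons.injEq] at h
    obtain ⟨rfl, rfl⟩ := h
    exact Or.inr (Or.inl ⟨List.singleton_sublist.1 h1, h2⟩)
  · simp only [List.cons_append, List.nil_append, List.cons.injEq] at h
    obtain ⟨rfl, rfl, rfl⟩ := h
    exact Or.inr (Or.inr (Or.inl ⟨h1, List.singleton_sublist.1 h2⟩))
  · simp only [List.cons_append, List.cons.injEq, List.nil_eq, List.append_eq_nil_iff] at h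
    obtain ⟨rfl, rfl, rfl, rfl, rfl⟩ := h
    exact Or.inr (Or.inr (Or.inr h1))

theorem sp4 {a b c d : ℕ} {u v : List ℕ} (h : [a, b, c, d].Sublist (u ++ v)) :
    [a, b, c, d].Sublist v ∨ (a ∈ u ∧ [b, c, d].Sublist v) ∨
      ([a, b].Sublist u ∧ [c, d].Sublist v) ∨ ([a, b, c].Sublist u ∧ d ∈ v) ∨
      [a, b, c, d].Sublist u := by
  rw [List.sublist_append_iff] at h
  obtain ⟨l1, l2, h, h1, h2⟩ := h
  rcases l1 with _ | ⟨x, _ | ⟨y, _ | ⟨z, _ | ⟨t, l⟩⟩⟩⟩
  · simp only [List.nil_append] at h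
    subst h
    exact Or.inl h2
  · simp only [List.cons_append, List.nil_append, List.cons.injEq] at h
    obtain ⟨rfl, rfl⟩ := h
    exact Or.inr (Or.inl ⟨List.singleton_sublist.1 h1, h2⟩)
  · simp only [List.cons_append, List.nil_append, List.cons.injEq] at h
    obtain ⟨rfl, rfl, rfl⟩ := h
    exact Or.inr (Or.inr (Or.inl ⟨h1, h2⟩))
  · simp only [List.cons_append, List.nil_append, List.cons.injEq] at h
    obtain ⟨rfl, rfl, rfl, rfl⟩ := h
    exact Or.inr (Or.inr (Or.inr (Or.inl ⟨h1, List.singleton_sublist.1 h2⟩)))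
  · simp only [List.cons_append, List.cons.injEq, List.nil_eq, List.append_eq_nil_iff] at h
    obtain ⟨rfl, rfl, rfl, rfl, rfl, rfl⟩ := h
    exact Or.inr (Or.inr (Or.inr (Or.inr h1)))

theorem sp5 {a b c d e : ℕ} {u v : List ℕ} (h : [a, b, c, d, e].Sublist (u ++ v)) :
    [a, b, c, d, e].Sublist v ∨ (a ∈ u ∧ [b, c, d, e].Sublist v) ∨
      ([a, b].Sublist u ∧ [c, d, e].Sublist v) ∨ ([a, b, c].Sublist u ∧ [d, e].Sublist v) ∨
      ([a, b, c, d].Sublist u ∧ e ∈ v) ∨ [a, b, c, d, e].Sublist u := by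
  rw [List.sublist_append_iff] at h
  obtain ⟨l1, l2, h, h1, h2⟩ := h
  rcases l1 with _ | ⟨x, _ | ⟨y, _ | ⟨z, _ | ⟨t, _ | ⟨s, l⟩⟩⟩⟩⟩
  · simp only [List.nil_append] at h
    subst h
    exact Or.inl h2
  · simp only [List.cons_append, List.nil_append, List.cons.injEq] at h
    obtain ⟨rfl, rfl⟩ := h
    exact Or.inr (Or.inl ⟨List.singleton_sublist.1 h1, h2⟩)
  · simp only [List.cons_append, List.nil_append, List.cons.injEq] at h
    obtain ⟨rfl, rfl, rfl⟩ := h
    exact Or.inr (Or.inr (Or.inl ⟨h1, h2⟩))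
  · simp only [List.cons_append, List.nil_append, List.cons.injEq] at h
    obtain ⟨rfl, rfl, rfl, rfl⟩ := h
    exact Or.inr (Or.inr (Or.inr (Or.inl ⟨h1, h2⟩)))
  · simp only [List.cons_append, List.nil_append, List.cons.injEq] at h
    obtain ⟨rfl, rfl, rfl, rfl, rfl⟩ := h
    exact Or.inr (Or.inr (Or.inr (Or.inr (Or.inl ⟨h1, List.singleton_sublist.1 h2⟩))))
  · simp only [List.cons_append, List.cons.injEq, List.nil_eq, List.append_eq_nil_iff] at h
    obtain ⟨rfl, rfl, rfl, rfl, rfl, rfl, rfl⟩ := h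
    exact Or.inr (Or.inr (Or.inr (Or.inr (Or.inr h1))))

theorem app {l1 l2 u v : List ℕ} (h1 : l1.Sublist u) (h2 : l2.Sublist v) :
    (l1 ++ l2).Sublist (u ++ v) := h1.append h2

theorem lft {l u v : List ℕ} (h : l.Sublist u) : l.Sublist (u ++ v) :=
  h.trans (List.sublist_append_left u v)

theorem rgt {l u v : List ℕ} (h : l.Sublist v) : l.Sublist (u ++ v) :=
  h.trans (List.sublist_append_right u v)

theorem sg {a : ℕ} {u : List ℕ} (h : a ∈ u) : [a].Sublist u := List.singleton_sublist.2 h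

end ModSPM

open ModSPM

/-- Module SPM: avoidance in a skew sum. -/
theorem spm : StmtSPM := by
  intro u v hu hv hlt
  obtain ⟨x, hx⟩ := List.exists_mem_of_ne_nil u hu
  obtain ⟨y, hy⟩ := List.exists_mem_of_ne_nil v hv
  have key : ∀ a ∈ u, ∀ b ∈ v, b < a := fun a ha b hb => hlt b hb a ha
  refine ⟨⟨fun h => ⟨?_, ?_⟩, fun h => ?_⟩, ⟨fun h => ⟨?_, ?_⟩, fun h => ?_⟩,
    ⟨fun h => ⟨?_, ?_⟩, fun h => ?_⟩, ⟨fun h => ⟨?_, ?_⟩, fun h => ?_⟩,
    ⟨fun h => ⟨?_, ?_⟩, fun h => ?_⟩, ⟨fun h => ⟨?_, ?_⟩, fun h => ?_⟩,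
    ⟨fun h => ⟨?_, ?_⟩, fun h => ?_⟩, ⟨fun h => ⟨?_, ?_, ?_⟩, fun h => ?_⟩⟩
  -- 231
  · intro a b hab hlt'
    have := h a b y (app hab (sg hy))
    have h1 := key a (hab.subset (by simp)) y hy
    omega
  · intro a b c hs
    exact h a b c (rgt hs)
  · intro a b c hs hc
    obtain ⟨h1, h2⟩ := h
    rcases sp3 hs with hs | ⟨ha, hs⟩ | ⟨hs, hc'⟩ | hs
    · exact h2 a b c hs hc
    · have := key a ha b (hs.subset (by simp))
      omega
    · exact h1 a b hs hc.2
    · exact h1 a b ((List.sublist_append_left [a, b] [c]).trans hs) hc.2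
  -- 132
  · intro a b c hs
    exact h a b c (lft hs)
  · intro a b c hs
    exact h a b c (rgt hs)
  · intro a b c hs hc
    obtain ⟨h1, h2⟩ := h
    rcases sp3 hs with hs | ⟨ha, hs⟩ | ⟨hs, hc'⟩ | hs
    · exact h2 a b c hs hc
    · have := key a ha b (hs.subset (by simp))
      omega
    · have := key a (hs.subset (by simp)) c hc'
      omega
    · exact h1 a b c hs hc
  -- 2413
  · intro a b c d hs
    exact h a b c d (lft hs)
  · intro a b c d hs
    exact h a b c d (rgt hs)
  · intro a b c d hs hc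
    obtain ⟨h1, h2⟩ := h
    rcases sp4 hs with hs | ⟨ha, hs⟩ | ⟨hs, hs'⟩ | ⟨hs, hc'⟩ | hs
    · exact h2 a b c d hs hc
    · have := key a ha b (hs.subset (by simp))
      omega
    · have := key a (hs.subset (by simp)) d (hs'.subset (by simp))
      omega
    · have := key a (hs.subset (by simp)) d hc'
      omega
    · exact h1 a b c d hs hc
  -- 3142
  · intro a b c d hs
    exact h a b c d (lft hs)
  · intro a b c d hs
    exact h a b c d (rgt hs)
  · intro a b c d hs hc
    obtain ⟨h1, h2⟩ := h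
    rcases sp4 hs with hs | ⟨ha, hs⟩ | ⟨hs, hs'⟩ | ⟨hs, hc'⟩ | hs
    · exact h2 a b c d hs hc
    · have := key a ha c (hs.subset (by simp))
      omega
    · have := key a (hs.subset (by simp)) c (hs'.subset (by simp))
      omega
    · have := key b (hs.subset (by simp)) d hc'
      omega
    · exact h1 a b c d hs hc
  -- 1342
  · intro a b c d hs
    exact h a b c d (lft hs)
  · intro a b c d hs
    exact h a b c d (rgt hs)
  · intro a b c d hs hc
    obtain ⟨h1, h2⟩ := h
    rcases sp4 hs with hs | ⟨ha, hs⟩ | ⟨hs, hs'⟩ | ⟨hs, hc'⟩ | hs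
    · exact h2 a b c d hs hc
    · have := key a ha b (hs.subset (by simp))
      omega
    · have := key a (hs.subset (by simp)) c (hs'.subset (by simp))
      omega
    · have := key a (hs.subset (by simp)) d hc'
      omega
    · exact h1 a b c d hs hc
  -- 2431
  · intro a b c hs hc
    have := h a b c y (app hs (sg hy))
    have h1 := key a (hs.subset (by simp)) y hy
    omega
  · intro a b c d hs
    exact h a b c d (rgt hs)
  · intro a b c d hs hc
    obtain ⟨h1, h2⟩ := h
    rcases sp4 hs with hs | ⟨ha, hs⟩ | ⟨hs, hs'⟩ | ⟨hs, hc'⟩ | hs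
    · exact h2 a b c d hs hc
    · have := key a ha b (hs.subset (by simp))
      omega
    · have := key a (hs.subset (by simp)) c (hs'.subset (by simp))
      omega
    · exact h1 a b c hs hc.2
    · exact h1 a b c ((List.sublist_append_left [a, b, c] [d]).trans hs) hc.2
  -- 12453
  · intro a b c d e hs
    exact h a b c d e (lft hs)
  · intro a b c d e hs
    exact h a b c d e (rgt hs)
  · intro a b c d e hs hc
    obtain ⟨h1, h2⟩ := h
    rcases sp5 hs with hs | ⟨ha, hs⟩ | ⟨hs, hs'⟩ | ⟨hs, hs'⟩ | ⟨hs, hc'⟩ | hs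
    · exact h2 a b c d e hs hc
    · have := key a ha b (hs.subset (by simp))
      omega
    · have := key a (hs.subset (by simp)) c (hs'.subset (by simp))
      omega
    · have := key a (hs.subset (by simp)) d (hs'.subset (by simp))
      omega
    · have := key a (hs.subset (by simp)) e hc'
      omega
    · exact h1 a b c d e hs hc
  -- 35421
  · intro a b c d hs hc
    have := h a b c d y (app hs (sg hy))
    have h1 := key d (hs.subset (by simp)) y hy
    omega
  · intro a b c d e hs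
    exact h a b c d e (rgt hs)
  · by_contra hcon
    rw [not_or] at hcon
    obtain ⟨h1, h2⟩ := hcon
    unfold av132 at h1
    unfold av21 at h2
    push Not at h1 h2
    obtain ⟨a, b, c, hs, hc1, hc2⟩ := h1
    obtain ⟨d, e, hs', hde⟩ := h2
    have := h a b c d e (app hs hs')
    have h1 := key a (hs.subset (by simp)) d (hs'.subset (by simp))
    omega
  · intro a b c d e hs hc
    obtain ⟨h1, h2, h3⟩ := h
    rcases sp5 hs with hs | ⟨ha, hs⟩ | ⟨hs, hs'⟩ | ⟨hs, hs'⟩ | ⟨hs, hc'⟩ | hs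
    · exact h2 a b c d e hs hc
    · have := key a ha b (hs.subset (by simp))
      omega
    · have := key a (hs.subset (by simp)) c (hs'.subset (by simp))
      omega
    · rcases h3 with h3 | h3
      · exact h3 a b c hs ⟨by omega, by omega⟩
      · exact h3 d e hs' (by omega)
    · exact h1 a b c d hs ⟨by omega, by omega, by omega⟩
    · exact h1 a b c d ((List.sublist_append_left [a, b, c, d] [e]).trans hs)
        ⟨by omega, by omega, by omega⟩

end Pool.Agent.T6.H99.RC
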