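import Pool.Agent.T6.H99.RC.Defs

/-!
# Module SPP of project RC (MP_163b0f_co): avoidance in a sum
-/

set_option autoImplicit false

namespace Pool.Agent.T6.H99.RC.ModSPP

open Pool.Agent.T6.H99.RC

theorem cr {u v l₁ l₂ : List ℕ} (h : lt u v) (h₁ : l₁.Sublist u) (h₂ : l₂.Sublist v) :
    ∀ a ∈ l₁, ∀ b ∈ l₂, a < b :=
  fun a ha b hb => h a (h₁.subset ha) b (h₂.subset hb)

theorem split3 {u v : List ℕ} {a b c : ℕ} (h : [a, b, c].Sublist (u ++ v)) :
    [a, b, c].Sublist v ∨ ([a].Sublist u ∧ [b, c].Sublist v) ∨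
      ([a, b].Sublist u ∧ [c].Sublist v) ∨ [a, b, c].Sublist u := by
  obtain ⟨l₁, l₂, h0, h1, h2⟩ := List.sublist_append_iff.1 h
  rcases l₁ with _ | ⟨x, _ | ⟨y, _ | ⟨z, l₁⟩⟩⟩ <;> simp at h0
  · subst h0; exact Or.inl h2
  · obtain ⟨rfl, rfl⟩ := h0; exact Or.inr (Or.inl ⟨h1, h2⟩)
  · obtain ⟨rfl, rfl, rfl⟩ := h0; exact Or.inr (Or.inr (Or.inl ⟨h1, h2⟩))
  · obtain ⟨rfl, rfl, rfl, rfl, rfl⟩ := h0; exact Or.inr (Or.inr (Or.inr h1))

theorem split4 {u v : List ℕ} {a b c d : ℕ} (h : [a, b, c, d].Sublist (u ++ v)) :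
    [a, b, c, d].Sublist v ∨ ([a].Sublist u ∧ [b, c, d].Sublist v) ∨
      ([a, b].Sublist u ∧ [c, d].Sublist v) ∨ ([a, b, c].Sublist u ∧ [d].Sublist v) ∨
      [a, b, c, d].Sublist u := by
  obtain ⟨l₁, l₂, h0, h1, h2⟩ := List.sublist_append_iff.1 h
  rcases l₁ with _ | ⟨x, _ | ⟨y, _ | ⟨z, _ | ⟨t, l₁⟩⟩⟩⟩ <;> simp at h0
  · subst h0; exact Or.inl h2
  · obtain ⟨rfl, rfl⟩ := h0; exact Or.inr (Or.inl ⟨h1, h2⟩)
  · obtain ⟨rfl, rfl, rfl⟩ := h0; exact Or.inr (Or.inr (Or.inl ⟨h1, h2⟩))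
  · obtain ⟨rfl, rfl, rfl, rfl⟩ := h0; exact Or.inr (Or.inr (Or.inr (Or.inl ⟨h1, h2⟩)))
  · obtain ⟨rfl, rfl, rfl, rfl, rfl, rfl⟩ := h0
    exact Or.inr (Or.inr (Or.inr (Or.inr h1)))

theorem split5 {u v : List ℕ} {a b c d e : ℕ} (h : [a, b, c, d, e].Sublist (u ++ v)) :
    [a, b, c, d, e].Sublist v ∨ ([a].Sublist u ∧ [b, c, d, e].Sublist v) ∨
      ([a, b].Sublist u ∧ [c, d, e].Sublist v) ∨ ([a, b, c].Sublist u ∧ [d, e].Sublist v) ∨
      ([a, b, c, d].Sublist u ∧ [e].Sublist v) ∨ [a, b, c, d, e].Sublist u := by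
  obtain ⟨l₁, l₂, h0, h1, h2⟩ := List.sublist_append_iff.1 h
  rcases l₁ with _ | ⟨x, _ | ⟨y, _ | ⟨z, _ | ⟨t, _ | ⟨s, l₁⟩⟩⟩⟩⟩ <;> simp at h0
  · subst h0; exact Or.inl h2
  · obtain ⟨rfl, rfl⟩ := h0; exact Or.inr (Or.inl ⟨h1, h2⟩)
  · obtain ⟨rfl, rfl, rfl⟩ := h0; exact Or.inr (Or.inr (Or.inl ⟨h1, h2⟩))
  · obtain ⟨rfl, rfl, rfl, rfl⟩ := h0; exact Or.inr (Or.inr (Or.inr (Or.inl ⟨h1, h2⟩)))
  · obtain ⟨rfl, rfl, rfl, rfl, rfl⟩ := h0
    exact Or.inr (Or.inr (Or.inr (Or.inr (Or.inl ⟨h1, h2⟩))))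
  · obtain ⟨rfl, rfl, rfl, rfl, rfl, rfl, rfl⟩ := h0
    exact Or.inr (Or.inr (Or.inr (Or.inr (Or.inr h1))))

theorem inl {l u v : List ℕ} (h : l.Sublist u) : l.Sublist (u ++ v) :=
  h.trans (List.sublist_append_left u v)

theorem inr {l u v : List ℕ} (h : l.Sublist v) : l.Sublist (u ++ v) :=
  h.trans (List.sublist_append_right u v)

theorem inm {l₁ l₂ u v : List ℕ} (h₁ : l₁.Sublist u) (h₂ : l₂.Sublist v) :
    (l₁ ++ l₂).Sublist (u ++ v) := h₁.append h₂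

theorem s231 {u v : List ℕ} (h : lt u v) : av231 (u ++ v) ↔ av231 u ∧ av231 v := by
  refine ⟨fun H => ⟨fun a b c s => H a b c (inl s), fun a b c s => H a b c (inr s)⟩, ?_⟩
  rintro ⟨H1, H2⟩ a b c s hh
  rcases split3 s with s | ⟨s, t⟩ | ⟨s, t⟩ | s
  · exact H2 a b c s hh
  · have := cr h s t; simp at this; omega
  · have := cr h s t; simp at this; omega
  · exact H1 a b c s hh

theorem s132 {u v : List ℕ} (hu : u ≠ []) (h : lt u v) :
    av132 (u ++ v) ↔ av132 u ∧ av21 v := by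
  obtain ⟨x, hx⟩ := List.exists_mem_of_ne_nil u hu
  refine ⟨fun H => ⟨fun a b c s => H a b c (inl s), fun a b s hh => ?_⟩, ?_⟩
  · have s' := inm (List.singleton_sublist.2 hx) s
    have := cr h (List.singleton_sublist.2 hx) s
    simp at this
    exact H x a b s' ⟨this.2, hh⟩
  rintro ⟨H1, H2⟩ a b c s hh
  rcases split3 s with s | ⟨s, t⟩ | ⟨s, t⟩ | s
  · exact H2 b c ((List.sublist_cons_self a _).trans s) hh.2
  · exact H2 b c t hh.2
  · have := cr h s t; simp at this; omega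
  · exact H1 a b c s hh

theorem s2413 {u v : List ℕ} (h : lt u v) : av2413 (u ++ v) ↔ av2413 u ∧ av2413 v := by
  refine ⟨fun H => ⟨fun a b c d s => H a b c d (inl s), fun a b c d s => H a b c d (inr s)⟩, ?_⟩
  rintro ⟨H1, H2⟩ a b c d s hh
  rcases split4 s with s | ⟨s, t⟩ | ⟨s, t⟩ | ⟨s, t⟩ | s
  · exact H2 a b c d s hh
  · have := cr h s t; simp at this; omega
  · have := cr h s t; simp at this; omega
  · have := cr h s t; simp at this; omega
  · exact H1 a b c d s hh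

theorem s3142 {u v : List ℕ} (h : lt u v) : av3142 (u ++ v) ↔ av3142 u ∧ av3142 v := by
  refine ⟨fun H => ⟨fun a b c d s => H a b c d (inl s), fun a b c d s => H a b c d (inr s)⟩, ?_⟩
  rintro ⟨H1, H2⟩ a b c d s hh
  rcases split4 s with s | ⟨s, t⟩ | ⟨s, t⟩ | ⟨s, t⟩ | s
  · exact H2 a b c d s hh
  · have := cr h s t; simp at this; omega
  · have := cr h s t; simp at this; omega
  · have := cr h s t; simp at this; omega
  · exact H1 a b c d s hh

theorem s2431 {u v : List ℕ} (h : lt u v) : av2431 (u ++ v) ↔ av2431 u ∧ av2431 v := by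
  refine ⟨fun H => ⟨fun a b c d s => H a b c d (inl s), fun a b c d s => H a b c d (inr s)⟩, ?_⟩
  rintro ⟨H1, H2⟩ a b c d s hh
  rcases split4 s with s | ⟨s, t⟩ | ⟨s, t⟩ | ⟨s, t⟩ | s
  · exact H2 a b c d s hh
  · have := cr h s t; simp at this; omega
  · have := cr h s t; simp at this; omega
  · have := cr h s t; simp at this; omega
  · exact H1 a b c d s hh

theorem s1342 {u v : List ℕ} (hu : u ≠ []) (h : lt u v) :
    av1342 (u ++ v) ↔ av1342 u ∧ av231 v := by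
  obtain ⟨x, hx⟩ := List.exists_mem_of_ne_nil u hu
  refine ⟨fun H => ⟨fun a b c d s => H a b c d (inl s), fun a b c s hh => ?_⟩, ?_⟩
  · have s' := inm (List.singleton_sublist.2 hx) s
    have := cr h (List.singleton_sublist.2 hx) s
    simp at this
    exact H x a b c s' ⟨this.2.2, hh⟩
  rintro ⟨H1, H2⟩ a b c d s hh
  rcases split4 s with s | ⟨s, t⟩ | ⟨s, t⟩ | ⟨s, t⟩ | s
  · exact H2 b c d ((List.sublist_cons_self a _).trans s) hh.2
  · exact H2 b c d t hh.2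
  · have := cr h s t; simp at this; omega
  · have := cr h s t; simp at this; omega
  · exact H1 a b c d s hh

theorem s35421 {u v : List ℕ} (h : lt u v) : av35421 (u ++ v) ↔ av35421 u ∧ av35421 v := by
  refine ⟨fun H => ⟨fun a b c d e s => H a b c d e (inl s),
    fun a b c d e s => H a b c d e (inr s)⟩, ?_⟩
  rintro ⟨H1, H2⟩ a b c d e s hh
  rcases split5 s with s | ⟨s, t⟩ | ⟨s, t⟩ | ⟨s, t⟩ | ⟨s, t⟩ | s
  · exact H2 a b c d e s hh
  · have := cr h s t; simp at this; omega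
  · have := cr h s t; simp at this; omega
  · have := cr h s t; simp at this; omega
  · have := cr h s t; simp at this; omega
  · exact H1 a b c d e s hh

theorem s12453 {u v : List ℕ} (hu : u ≠ []) (h : lt u v) :
    av12453 (u ++ v) ↔ av12453 u ∧ av1342 v ∧ (av12 u ∨ av231 v) := by
  obtain ⟨x, hx⟩ := List.exists_mem_of_ne_nil u hu
  refine ⟨fun H => ⟨fun a b c d e s => H a b c d e (inl s), fun a b c d s hh => ?_, ?_⟩, ?_⟩
  · have s' := inm (List.singleton_sublist.2 hx) s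
    have := cr h (List.singleton_sublist.2 hx) s
    simp at this
    exact H x a b c d s' ⟨this.1, hh⟩
  · by_contra hc
    have h1 : ¬ av12 u := fun k => hc (Or.inl k)
    have h2 : ¬ av231 v := fun k => hc (Or.inr k)
    unfold av12 at h1
    unfold av231 at h2
    push Not at h1 h2
    obtain ⟨a, b, s, hab⟩ := h1
    obtain ⟨c, d, e, t, hcd⟩ := h2
    have := cr h s t
    simp at this
    refine H a b c d e (inm s t) ⟨hab, ?_, hcd⟩
    exact this.2.2.2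
  rintro ⟨H1, H2, H3⟩ a b c d e s hh
  rcases split5 s with s | ⟨s, t⟩ | ⟨s, t⟩ | ⟨s, t⟩ | ⟨s, t⟩ | s
  · exact H2 b c d e ((List.sublist_cons_self a _).trans s) hh.2
  · exact H2 b c d e t hh.2
  · rcases H3 with H3 | H3
    · exact H3 a b s hh.1
    · exact H3 c d e t hh.2.2
  · have := cr h s t; simp at this; omega
  · have := cr h s t; simp at this; omega
  · exact H1 a b c d e s hh

end Pool.Agent.T6.H99.RC.ModSPP

namespace Pool.Agent.T6.H99.RC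

/-- Module SPP: avoidance in a sum. -/
theorem spp : StmtSPP := fun _ _ hu _ h =>
  ⟨ModSPP.s231 h, ModSPP.s132 hu h, ModSPP.s2413 h, ModSPP.s3142 h, ModSPP.s1342 hu h,
    ModSPP.s2431 h, ModSPP.s12453 hu h, ModSPP.s35421 h⟩

end Pool.Agent.T6.H99.RC
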