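import Pool.Agent.T6.H99.RC.Defs

/-!
# Counting permutations by words
-/

set_option autoImplicit false

namespace Pool.Agent.T6.H99.RC

open PowerSeries

namespace ModTRA

lemma word_inj {n : ℕ} : Function.Injective (word : Equiv.Perm (Fin n) → List ℕ) := by
  intro π σ h
  have h1 := List.ofFn_injective h
  ext i
  exact congrFun h1 i

lemma word_mem {n : ℕ} (π : Equiv.Perm (Fin n)) : word π ∈ perms n := by
  rw [perms, List.mem_toFinset, List.mem_permutations]
  have h1 : word π = List.ofFn ((fun i : Fin n => (i : ℕ)) ∘ π) := rfl
  have h2 : List.ofFn (fun i : Fin n => (i : ℕ)) = List.range n := by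
    rw [List.ofFn_eq_map, List.map_coe_finRange_eq_range]
  rw [h1, ← h2]
  exact Equiv.Perm.ofFn_comp_perm π _

lemma perms_eq (n : ℕ) : perms n = Finset.univ.image (word : Equiv.Perm (Fin n) → List ℕ) := by
  symm
  refine Finset.eq_of_subset_of_card_le ?_ ?_
  · intro w hw
    obtain ⟨π, _, rfl⟩ := Finset.mem_image.1 hw
    exact word_mem π
  · rw [Finset.card_image_of_injective _ word_inj, Finset.card_univ, Fintype.card_perm,
      Fintype.card_fin, perms]
    refine (List.toFinset_card_le _).trans ?_
    rw [List.length_permutations, List.length_range]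

end ModTRA

open ModTRA

/-- Module TRA. -/
theorem tra : StmtTRA := by
  classical
  intro n P
  rw [gf, PowerSeries.coeff_mk, perms_eq, Finset.filter_image,
    Finset.card_image_of_injective _ word_inj, Nat.card_eq_fintype_card, Fintype.card_subtype]

end Pool.Agent.T6.H99.RC
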