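import Pool.Agent.T6.H99.RC.Defs

/-!
# Project RC, module TRB (helper29): containment and words
-/

set_option autoImplicit false

namespace Pool.Agent.T6.H99.RC

namespace ModTRB

theorem sub_iff {n k : ℕ} (π : Equiv.Perm (Fin n)) (g : Fin k → ℕ) :
    (List.ofFn g).Sublist (word π) ↔
      ∃ f : Fin k → Fin n, StrictMono f ∧ ∀ i, g i = (π (f i) : ℕ) := by
  rw [List.sublist_iff_exists_fin_orderEmbedding_get_eq]
  have hl : (List.ofFn g).length = k := List.length_ofFn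
  have hw : (word π).length = n := by simp [word]
  constructor
  · rintro ⟨f, hf⟩
    refine ⟨fun i => (f (i.cast hl.symm)).cast hw, ?_, ?_⟩
    · intro i j hij
      have h : f (i.cast hl.symm) < f (j.cast hl.symm) := f.strictMono hij
      exact h
    · intro i
      have := hf (i.cast hl.symm)
      simp only [word, List.get_ofFn] at this
      exact this
  · rintro ⟨f, hf, h⟩
    refine ⟨OrderEmbedding.ofStrictMono (fun i => (f (i.cast hl)).cast hw.symm) ?_, ?_⟩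
    · intro i j hij
      have h' : f (i.cast hl) < f (j.cast hl) := hf hij
      exact h'
    · intro i
      have := h (i.cast hl)
      simp only [word, List.get_ofFn]
      exact this

theorem contains_iff {n k : ℕ} (π : Equiv.Perm (Fin n)) (σ : Equiv.Perm (Fin k)) :
    Contains π σ ↔ ∃ f : Fin k → Fin n, StrictMono f ∧ StrictMono fun i => π (f (σ.symm i)) := by
  constructor
  · rintro ⟨f, hf, h⟩
    refine ⟨f, hf, fun i j hij => ?_⟩
    rw [← h]; simpa using hij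
  · rintro ⟨f, hf, h⟩
    refine ⟨f, hf, fun i j => ?_⟩
    have := h.lt_iff_lt (a := σ i) (b := σ j)
    simpa using this.symm

theorem c3 {n : ℕ} (π : Equiv.Perm (Fin n)) (σ : Equiv.Perm (Fin 3)) (Q : ℕ → ℕ → ℕ → Prop)
    (hQ : ∀ h : Fin 3 → Fin n, (StrictMono fun i => h (σ.symm i)) ↔ Q (h 0) (h 1) (h 2)) :
    Contains π σ ↔ ¬ ∀ a b c, [a, b, c].Sublist (word π) → ¬ Q a b c := by
  rw [contains_iff]
  push Not
  constructor
  · rintro ⟨f, hf, h⟩
    refine ⟨π (f 0), π (f 1), π (f 2), ?_, (hQ fun i => π (f i)).1 h⟩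
    have := (sub_iff π fun i => (π (f i) : ℕ)).2 ⟨f, hf, fun _ => rfl⟩
    simpa [List.ofFn_succ] using this
  · rintro ⟨a, b, c, h, hq⟩
    have h' : (List.ofFn ![a, b, c]).Sublist (word π) := by simpa [List.ofFn_succ] using h
    obtain ⟨f, hf, hh⟩ := (sub_iff π _).1 h'
    refine ⟨f, hf, (hQ fun i => π (f i)).2 ?_⟩
    rw [← hh 0, ← hh 1, ← hh 2]
    exact hq

theorem c4 {n : ℕ} (π : Equiv.Perm (Fin n)) (σ : Equiv.Perm (Fin 4)) (Q : ℕ → ℕ → ℕ → ℕ → Prop)
    (hQ : ∀ h : Fin 4 → Fin n, (StrictMono fun i => h (σ.symm i)) ↔ Q (h 0) (h 1) (h 2) (h 3)) :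
    Contains π σ ↔ ¬ ∀ a b c d, [a, b, c, d].Sublist (word π) → ¬ Q a b c d := by
  rw [contains_iff]
  push Not
  constructor
  · rintro ⟨f, hf, h⟩
    refine ⟨π (f 0), π (f 1), π (f 2), π (f 3), ?_, (hQ fun i => π (f i)).1 h⟩
    have := (sub_iff π fun i => (π (f i) : ℕ)).2 ⟨f, hf, fun _ => rfl⟩
    simpa [List.ofFn_succ] using this
  · rintro ⟨a, b, c, d, h, hq⟩
    have h' : (List.ofFn ![a, b, c, d]).Sublist (word π) := by simpa [List.ofFn_succ] using h
    obtain ⟨f, hf, hh⟩ := (sub_iff π _).1 h'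
    refine ⟨f, hf, (hQ fun i => π (f i)).2 ?_⟩
    rw [← hh 0, ← hh 1, ← hh 2, ← hh 3]
    exact hq

theorem c5 {n : ℕ} (π : Equiv.Perm (Fin n)) (σ : Equiv.Perm (Fin 5))
    (Q : ℕ → ℕ → ℕ → ℕ → ℕ → Prop)
    (hQ : ∀ h : Fin 5 → Fin n,
      (StrictMono fun i => h (σ.symm i)) ↔ Q (h 0) (h 1) (h 2) (h 3) (h 4)) :
    Contains π σ ↔ ¬ ∀ a b c d e, [a, b, c, d, e].Sublist (word π) → ¬ Q a b c d e := by
  rw [contains_iff]
  push Not
  constructor
  · rintro ⟨f, hf, h⟩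
    refine ⟨π (f 0), π (f 1), π (f 2), π (f 3), π (f 4), ?_, (hQ fun i => π (f i)).1 h⟩
    have := (sub_iff π fun i => (π (f i) : ℕ)).2 ⟨f, hf, fun _ => rfl⟩
    simpa [List.ofFn_succ] using this
  · rintro ⟨a, b, c, d, e, h, hq⟩
    have h' : (List.ofFn ![a, b, c, d, e]).Sublist (word π) := by simpa [List.ofFn_succ] using h
    obtain ⟨f, hf, hh⟩ := (sub_iff π _).1 h'
    refine ⟨f, hf, (hQ fun i => π (f i)).2 ?_⟩
    rw [← hh 0, ← hh 1, ← hh 2, ← hh 3, ← hh 4]
    exact hq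

end ModTRB

open ModTRB

theorem trb : StmtTRB := by
  intro n π
  refine ⟨?_, ?_, ?_, ?_, ?_, ?_, ?_⟩
  · refine c3 π p231 (fun a b c => c < a ∧ a < b) fun h => ?_
    rw [Fin.strictMono_iff_lt_succ, Fin.forall_fin_two]
    exact Iff.rfl
  · refine c4 π p2413 (fun a b c d => c < a ∧ a < d ∧ d < b) fun h => ?_
    rw [Fin.strictMono_iff_lt_succ, Fin.forall_fin_succ, Fin.forall_fin_two]
    exact Iff.rfl
  · refine c4 π p3142 (fun a b c d => b < d ∧ d < a ∧ a < c) fun h => ?_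
    rw [Fin.strictMono_iff_lt_succ, Fin.forall_fin_succ, Fin.forall_fin_two]
    exact Iff.rfl
  · refine c4 π p1342 (fun a b c d => a < d ∧ d < b ∧ b < c) fun h => ?_
    rw [Fin.strictMono_iff_lt_succ, Fin.forall_fin_succ, Fin.forall_fin_two]
    exact Iff.rfl
  · refine c4 π p2431 (fun a b c d => d < a ∧ a < c ∧ c < b) fun h => ?_
    rw [Fin.strictMono_iff_lt_succ, Fin.forall_fin_succ, Fin.forall_fin_two]
    exact Iff.rfl
  · refine c5 π p12453 (fun a b c d e => a < b ∧ b < e ∧ e < c ∧ c < d) fun h => ?_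
    rw [Fin.strictMono_iff_lt_succ, Fin.forall_fin_succ, Fin.forall_fin_succ, Fin.forall_fin_two]
    exact Iff.rfl
  · refine c5 π p35421 (fun a b c d e => e < d ∧ d < a ∧ a < c ∧ c < b) fun h => ?_
    rw [Fin.strictMono_iff_lt_succ, Fin.forall_fin_succ, Fin.forall_fin_succ, Fin.forall_fin_two]
    exact Iff.rfl

end Pool.Agent.T6.H99.RC
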