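import Pool.Agent.T6.H99.RC.Defs

/-! # Project RC: the assembly -/

set_option autoImplicit false

namespace Pool.Agent.T6.H99.RC

open PowerSeries

namespace Asm

/-- nonempty words in `Av(231)` -/
def Kp (w : List ℕ) : Prop := w ≠ [] ∧ av231 w
/-- nonempty words in `Av(132)` -/
def Mp (w : List ℕ) : Prop := w ≠ [] ∧ av132 w
/-- nonempty words in `Av(2413, 3142, 1342, 2431)` -/
def Ip (w : List ℕ) : Prop := w ≠ [] ∧ av2413 w ∧ av3142 w ∧ av1342 w ∧ av2431 w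
/-- nonempty words in `Av(2413, 3142, 2431, 12453)` -/
def Ap (w : List ℕ) : Prop := w ≠ [] ∧ av2413 w ∧ av3142 w ∧ av2431 w ∧ av12453 w
/-- nonempty words in `Av(2413, 3142, 1342, 35421)` -/
def Bp (w : List ℕ) : Prop := w ≠ [] ∧ av2413 w ∧ av3142 w ∧ av1342 w ∧ av35421 w

theorem mem_perms (n : ℕ) (w : List ℕ) : w ∈ perms n ↔ w.Perm (List.range n) := by
  unfold perms
  rw [List.mem_toFinset, List.mem_permutations]

theorem nodup_of_mem (n : ℕ) (w : List ℕ) (h : w ∈ perms n) : w.Nodup :=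
  ((mem_perms n w).1 h).nodup_iff.2 List.nodup_range

/-- coefficients as cardinalities of sets -/
theorem coeff_gf (n : ℕ) (P : List ℕ → Prop) :
    coeff n (gf P) = (({w | w ∈ perms n ∧ P w} : Set (List ℕ)).ncard : ℤ) := by
  classical
  unfold gf
  rw [coeff_mk]
  congr 1
  rw [← Set.ncard_coe_finset]
  congr 1
  ext w
  simp only [Finset.coe_filter, Set.mem_ofPred_eq]

theorem fin_set (n : ℕ) (P : List ℕ → Prop) :
    ({w | w ∈ perms n ∧ P w} : Set (List ℕ)).Finite :=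
  (perms n).finite_toSet.subset fun _ h => h.1

theorem gf_congr (P Q : List ℕ → Prop) (h : ∀ w : List ℕ, w.Nodup → (P w ↔ Q w)) : gf P = gf Q := by
  ext n
  rw [coeff_gf, coeff_gf]
  congr 2
  ext w
  constructor
  · rintro ⟨h1, h2⟩
    exact ⟨h1, (h w (nodup_of_mem n w h1)).1 h2⟩
  · rintro ⟨h1, h2⟩
    exact ⟨h1, (h w (nodup_of_mem n w h1)).2 h2⟩

theorem gf_union (P Q : List ℕ → Prop) :
    gf (fun w => P w ∨ Q w) + gf (fun w => P w ∧ Q w) = gf P + gf Q := by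
  ext n
  simp only [map_add, coeff_gf]
  have h1 : ({w | w ∈ perms n ∧ (P w ∨ Q w)} : Set (List ℕ)) =
      {w | w ∈ perms n ∧ P w} ∪ {w | w ∈ perms n ∧ Q w} := by
    ext w; simp only [Set.mem_ofPred_eq, Set.mem_union]; tauto
  have h2 : ({w | w ∈ perms n ∧ (P w ∧ Q w)} : Set (List ℕ)) =
      {w | w ∈ perms n ∧ P w} ∩ {w | w ∈ perms n ∧ Q w} := by
    ext w; simp only [Set.mem_ofPred_eq, Set.mem_inter_iff]; tauto
  have h3 := Set.ncard_union_add_ncard_inter ({w | w ∈ perms n ∧ P w} : Set (List ℕ))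
    {w | w ∈ perms n ∧ Q w} (fin_set n P) (fin_set n Q)
  rw [h1, h2]
  exact_mod_cast h3

theorem gf_false (P : List ℕ → Prop) (h : ∀ w, ¬ P w) : gf P = 0 := by
  ext n
  rw [coeff_gf]
  simp [h]

theorem gf_disj (P Q R : List ℕ → Prop) (hR : ∀ w : List ℕ, w.Nodup → (R w ↔ P w ∨ Q w))
    (h : ∀ w, ¬ (P w ∧ Q w)) : gf R = gf P + gf Q := by
  rw [gf_congr R _ hR, ← gf_union P Q, gf_false (fun w => P w ∧ Q w) h, add_zero]

/-- The first sum component is unique. -/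
theorem uniqP (u v u' v' : List ℕ) (h : u ++ v = u' ++ v') (h1 : lt u v) (h2 : lt u' v') (h3 : SI u)
    (h4 : SI u') : u = u' := by
  rcases List.append_eq_append_iff.1 h with ⟨a, ha, hb⟩ | ⟨c, hc, hd⟩
  · rcases eq_or_ne a [] with rfl | hne
    · simpa using ha.symm
    · exact absurd ⟨u, a, ha, h3.1, hne, fun x hx y hy => h1 x hx y (by rw [hb]; simp [hy])⟩ h4.2
  · rcases eq_or_ne c [] with rfl | hne
    · simpa using hc
    · exact absurd ⟨u', c, hc, h4.1, hne, fun x hx y hy => h2 x hx y (by rw [hd]; simp [hy])⟩ h3.2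

/-- The first skew component is unique. -/
theorem uniqM (u v u' v' : List ℕ) (h : u ++ v = u' ++ v') (h1 : lt v u) (h2 : lt v' u') (h3 : KI u)
    (h4 : KI u') : u = u' := by
  rcases List.append_eq_append_iff.1 h with ⟨a, ha, hb⟩ | ⟨c, hc, hd⟩
  · rcases eq_or_ne a [] with rfl | hne
    · simpa using ha.symm
    · exact absurd ⟨u, a, ha, h3.1, hne, fun y hy x hx => h1 y (by rw [hb]; simp [hy]) x hx⟩ h4.2
  · rcases eq_or_ne c [] with rfl | hne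
    · simpa using hc
    · exact absurd ⟨u', c, hc, h4.1, hne, fun y hy x hx => h2 y (by rw [hd]; simp [hy]) x hx⟩ h3.2

/-- All hypotheses. -/
structure Hyp : Prop where
  fst : StmtFST
  cvp : StmtCVP
  cvm : StmtCVM
  spp : StmtSPP
  spm : StmtSPM
  imp : StmtIMP
  inv : StmtINV
  mon : StmtMON
  cls : StmtCLS
  alg : StmtALG

theorem short_av2413 (w : List ℕ) (h : w.length = 1) : av2413 w := by
  intro a b c d hs
  have := hs.length_le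
  simp at this
  omega

theorem short_av3142 (w : List ℕ) (h : w.length = 1) : av3142 w := by
  intro a b c d hs
  have := hs.length_le
  simp at this
  omega

theorem short_av1342 (w : List ℕ) (h : w.length = 1) : av1342 w := by
  intro a b c d hs
  have := hs.length_le
  simp at this
  omega

theorem short_av2431 (w : List ℕ) (h : w.length = 1) : av2431 w := by
  intro a b c d hs
  have := hs.length_le
  simp at this
  omega

theorem short_av231 (w : List ℕ) (h : w.length = 1) : av231 w := by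
  intro a b c hs
  have := hs.length_le
  simp at this
  omega

theorem short_av132 (w : List ℕ) (h : w.length = 1) : av132 w := by
  intro a b c hs
  have := hs.length_le
  simp at this
  omega

theorem ne_of_len (w : List ℕ) (h : w.length = 1) : w ≠ [] := by
  rintro rfl
  simp at h

section
variable (H : Hyp)
include H

theorem invK : Inv Kp := fun w a => by
  obtain ⟨-, -, h231, -, -, -, -, -, -, -, -, -, hne⟩ := H.inv
  exact and_congr (hne w a) (h231 w a)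

theorem invM : Inv Mp := fun w a => by
  obtain ⟨-, -, -, h132, -, -, -, -, -, -, -, -, hne⟩ := H.inv
  exact and_congr (hne w a) (h132 w a)

theorem invI : Inv Ip := fun w a => by
  obtain ⟨-, -, -, -, h2413, h3142, h1342, h2431, -, -, -, -, hne⟩ := H.inv
  exact and_congr (hne w a) (and_congr (h2413 w a) (and_congr (h3142 w a)
    (and_congr (h1342 w a) (h2431 w a))))

theorem invA : Inv Ap := fun w a => by
  obtain ⟨-, -, -, -, h2413, h3142, -, h2431, h12453, -, -, -, hne⟩ := H.inv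
  exact and_congr (hne w a) (and_congr (h2413 w a) (and_congr (h3142 w a)
    (and_congr (h2431 w a) (h12453 w a))))

theorem invB : Inv Bp := fun w a => by
  obtain ⟨-, -, -, -, h2413, h3142, h1342, -, -, h35421, -, -, hne⟩ := H.inv
  exact and_congr (hne w a) (and_congr (h2413 w a) (and_congr (h3142 w a)
    (and_congr (h1342 w a) (h35421 w a))))

/-- class decomposition for `K` -/
theorem clsK : gf (fun w => SI w ∧ Kp w) = X + gf (fun w => KD w ∧ Kp w) ∧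
    gf (fun w => KI w ∧ Kp w) = X + gf (fun w => SD w ∧ Kp w) ∧
    gf Kp = X + gf (fun w => KD w ∧ Kp w) + gf (fun w => SD w ∧ Kp w) :=
  H.cls Kp (fun w hw => ⟨hw.1, ((H.imp w).1 hw.2).1, ((H.imp w).1 hw.2).2.1⟩)
    (fun w hw => ⟨ne_of_len w hw, short_av231 w hw⟩)

theorem clsM : gf (fun w => SI w ∧ Mp w) = X + gf (fun w => KD w ∧ Mp w) ∧
    gf (fun w => KI w ∧ Mp w) = X + gf (fun w => SD w ∧ Mp w) ∧
    gf Mp = X + gf (fun w => KD w ∧ Mp w) + gf (fun w => SD w ∧ Mp w) :=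
  H.cls Mp (fun w hw => ⟨hw.1, ((H.imp w).2.1 hw.2).1, ((H.imp w).2.1 hw.2).2.1⟩)
    (fun w hw => ⟨ne_of_len w hw, short_av132 w hw⟩)

theorem clsI : gf (fun w => SI w ∧ Ip w) = X + gf (fun w => KD w ∧ Ip w) ∧
    gf (fun w => KI w ∧ Ip w) = X + gf (fun w => SD w ∧ Ip w) ∧
    gf Ip = X + gf (fun w => KD w ∧ Ip w) + gf (fun w => SD w ∧ Ip w) :=
  H.cls Ip (fun w hw => ⟨hw.1, hw.2.1, hw.2.2.1⟩)
    (fun w hw => ⟨ne_of_len w hw, short_av2413 w hw, short_av3142 w hw, short_av1342 w hw,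
      short_av2431 w hw⟩)

theorem clsA : gf (fun w => SI w ∧ Ap w) = X + gf (fun w => KD w ∧ Ap w) ∧
    gf (fun w => KI w ∧ Ap w) = X + gf (fun w => SD w ∧ Ap w) ∧
    gf Ap = X + gf (fun w => KD w ∧ Ap w) + gf (fun w => SD w ∧ Ap w) :=
  H.cls Ap (fun w hw => ⟨hw.1, hw.2.1, hw.2.2.1⟩)
    (fun w hw => ⟨ne_of_len w hw, short_av2413 w hw, short_av3142 w hw, short_av2431 w hw,
      (H.imp w).2.2.1 (short_av1342 w hw)⟩)

theorem clsB : gf (fun w => SI w ∧ Bp w) = X + gf (fun w => KD w ∧ Bp w) ∧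
    gf (fun w => KI w ∧ Bp w) = X + gf (fun w => SD w ∧ Bp w) ∧
    gf Bp = X + gf (fun w => KD w ∧ Bp w) + gf (fun w => SD w ∧ Bp w) :=
  H.cls Bp (fun w hw => ⟨hw.1, hw.2.1, hw.2.2.1⟩)
    (fun w hw => ⟨ne_of_len w hw, short_av2413 w hw, short_av3142 w hw, short_av1342 w hw,
      (H.imp w).2.2.2.1 (short_av2431 w hw)⟩)

/-- sums of words: rewriting a class -/
theorem sdec (R P Q : List ℕ → Prop) (hP : Inv P) (hQ : Inv Q) (hQ0 : ¬ Q [])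
    (h : ∀ u v : List ℕ, u ≠ [] → v ≠ [] → lt u v → (R (u ++ v) ↔ P u ∧ Q v)) :
    gf (fun w => SD w ∧ R w) = gf (fun w => SI w ∧ P w) * gf Q := by
  rw [← H.cvp P Q hP hQ hQ0]
  refine gf_congr _ _ fun w _ => ?_
  constructor
  · rintro ⟨h1, h2⟩
    obtain ⟨u, v, rfl, hv, hl, hu⟩ := (H.fst.2.1 w).1 h1
    obtain ⟨h3, h4⟩ := (h u v hu.1 hv hl).1 h2
    exact ⟨u, v, rfl, hl, ⟨hu, h3⟩, h4⟩
  · rintro ⟨u, v, rfl, hl, ⟨hu, h3⟩, h4⟩
    have hv : v ≠ [] := by rintro rfl; exact hQ0 h4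
    exact ⟨⟨u, v, rfl, hu.1, hv, hl⟩, (h u v hu.1 hv hl).2 ⟨h3, h4⟩⟩

/-- skew sums of words: rewriting a class -/
theorem kdec (R P Q : List ℕ → Prop) (hP : Inv P) (hQ : Inv Q) (hQ0 : ¬ Q [])
    (h : ∀ u v : List ℕ, u ≠ [] → v ≠ [] → lt v u → (R (u ++ v) ↔ P u ∧ Q v)) :
    gf (fun w => KD w ∧ R w) = gf (fun w => KI w ∧ P w) * gf Q := by
  rw [← H.cvm P Q hP hQ hQ0]
  refine gf_congr _ _ fun w _ => ?_
  constructor
  · rintro ⟨h1, h2⟩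
    obtain ⟨u, v, rfl, hv, hl, hu⟩ := (H.fst.2.2 w).1 h1
    obtain ⟨h3, h4⟩ := (h u v hu.1 hv hl).1 h2
    exact ⟨u, v, rfl, hl, ⟨hu, h3⟩, h4⟩
  · rintro ⟨u, v, rfl, hl, ⟨hu, h3⟩, h4⟩
    have hv : v ≠ [] := by rintro rfl; exact hQ0 h4
    exact ⟨⟨u, v, rfl, hu.1, hv, hl⟩, (h u v hu.1 hv hl).2 ⟨h3, h4⟩⟩

/-- sums of words: rewriting a class as a disjoint union of two parts -/
theorem sdec2 (R P Q P' Q' : List ℕ → Prop) (hP : Inv P) (hQ : Inv Q) (hQ0 : ¬ Q [])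
    (hP' : Inv P') (hQ' : Inv Q') (hQ0' : ¬ Q' []) (hPP : ∀ u, SI u → ¬ (P u ∧ P' u))
    (h : ∀ u v : List ℕ, u ≠ [] → v ≠ [] → lt u v →
      (R (u ++ v) ↔ (P u ∧ Q v) ∨ (P' u ∧ Q' v))) :
    gf (fun w => SD w ∧ R w) =
      gf (fun w => SI w ∧ P w) * gf Q + gf (fun w => SI w ∧ P' w) * gf Q' := by
  rw [← H.cvp P Q hP hQ hQ0, ← H.cvp P' Q' hP' hQ' hQ0']
  refine gf_disj _ _ _ (fun w _ => ?_) ?_
  · constructor
    · rintro ⟨h1, h2⟩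
      obtain ⟨u, v, rfl, hv, hl, hu⟩ := (H.fst.2.1 w).1 h1
      rcases (h u v hu.1 hv hl).1 h2 with ⟨h3, h4⟩ | ⟨h3, h4⟩
      · exact Or.inl ⟨u, v, rfl, hl, ⟨hu, h3⟩, h4⟩
      · exact Or.inr ⟨u, v, rfl, hl, ⟨hu, h3⟩, h4⟩
    · rintro (⟨u, v, rfl, hl, ⟨hu, h3⟩, h4⟩ | ⟨u, v, rfl, hl, ⟨hu, h3⟩, h4⟩)
      · have hv : v ≠ [] := by rintro rfl; exact hQ0 h4
        exact ⟨⟨u, v, rfl, hu.1, hv, hl⟩, (h u v hu.1 hv hl).2 (Or.inl ⟨h3, h4⟩)⟩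
      · have hv : v ≠ [] := by rintro rfl; exact hQ0' h4
        exact ⟨⟨u, v, rfl, hu.1, hv, hl⟩, (h u v hu.1 hv hl).2 (Or.inr ⟨h3, h4⟩)⟩
  · rintro w ⟨⟨u, v, hw, hl, ⟨hu, h3⟩, h4⟩, ⟨u', v', hw', hl', ⟨hu', h3'⟩, h4'⟩⟩
    have := uniqP u v u' v' (by rw [← hw, hw']) hl hl' hu hu'
    subst this
    exact hPP u hu ⟨h3, h3'⟩

theorem kdec2 (R P Q P' Q' : List ℕ → Prop) (hP : Inv P) (hQ : Inv Q) (hQ0 : ¬ Q [])
    (hP' : Inv P') (hQ' : Inv Q') (hQ0' : ¬ Q' []) (hPP : ∀ u, KI u → ¬ (P u ∧ P' u))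
    (h : ∀ u v : List ℕ, u ≠ [] → v ≠ [] → lt v u →
      (R (u ++ v) ↔ (P u ∧ Q v) ∨ (P' u ∧ Q' v))) :
    gf (fun w => KD w ∧ R w) =
      gf (fun w => KI w ∧ P w) * gf Q + gf (fun w => KI w ∧ P' w) * gf Q' := by
  rw [← H.cvm P Q hP hQ hQ0, ← H.cvm P' Q' hP' hQ' hQ0']
  refine gf_disj _ _ _ (fun w _ => ?_) ?_
  · constructor
    · rintro ⟨h1, h2⟩
      obtain ⟨u, v, rfl, hv, hl, hu⟩ := (H.fst.2.2 w).1 h1
      rcases (h u v hu.1 hv hl).1 h2 with ⟨h3, h4⟩ | ⟨h3, h4⟩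
      · exact Or.inl ⟨u, v, rfl, hl, ⟨hu, h3⟩, h4⟩
      · exact Or.inr ⟨u, v, rfl, hl, ⟨hu, h3⟩, h4⟩
    · rintro (⟨u, v, rfl, hl, ⟨hu, h3⟩, h4⟩ | ⟨u, v, rfl, hl, ⟨hu, h3⟩, h4⟩)
      · have hv : v ≠ [] := by rintro rfl; exact hQ0 h4
        exact ⟨⟨u, v, rfl, hu.1, hv, hl⟩, (h u v hu.1 hv hl).2 (Or.inl ⟨h3, h4⟩)⟩
      · have hv : v ≠ [] := by rintro rfl; exact hQ0' h4
        exact ⟨⟨u, v, rfl, hu.1, hv, hl⟩, (h u v hu.1 hv hl).2 (Or.inr ⟨h3, h4⟩)⟩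
  · rintro w ⟨⟨u, v, hw, hl, ⟨hu, h3⟩, h4⟩, ⟨u', v', hw', hl', ⟨hu', h3'⟩, h4'⟩⟩
    have := uniqM u v u' v' (by rw [← hw, hw']) hl hl' hu hu'
    subst this
    exact hPP u hu ⟨h3, h3'⟩

/-! #### The class `K = Av(231)` -/

theorem K1 : gf (fun w => SI w ∧ Kp w) = X + X * gf Kp := by
  rw [(clsK H).1, kdec H Kp av12 Kp H.inv.1 (invK H) (fun h => h.1 rfl)]
  · have : gf (fun w => KI w ∧ av12 w) = X := by
      rw [← H.mon.1]
      refine gf_congr _ _ fun w hw => ?_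
      constructor
      · rintro ⟨h1, h2⟩
        exact H.mon.2.2.2.2.2.1 w hw h2 h1
      · intro h1
        refine ⟨⟨ne_of_len w h1, ?_⟩, ?_⟩
        · rintro ⟨u, v, rfl, hu, hv, -⟩
          have := List.length_pos_iff.2 hu
          have := List.length_pos_iff.2 hv
          rw [List.length_append] at h1
          omega
        · intro a b hs
          have := hs.length_le
          simp at this
          omega
    rw [this]
  · intro u v hu hv hl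
    have := (H.spm u v hu hv hl).1
    unfold Kp
    constructor
    · rintro ⟨-, h2⟩
      exact ⟨(this.1 h2).1, hv, (this.1 h2).2⟩
    · rintro ⟨h1, -, h2⟩
      exact ⟨by simp [hu], this.2 ⟨h1, h2⟩⟩

theorem K2 : gf (fun w => SD w ∧ Kp w) = gf (fun w => SI w ∧ Kp w) * gf Kp := by
  refine sdec H Kp Kp Kp (invK H) (invK H) (fun h => h.1 rfl) ?_
  intro u v hu hv hl
  have := (H.spp u v hu hv hl).1
  unfold Kp
  constructor
  · rintro ⟨-, h2⟩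
    exact ⟨⟨hu, (this.1 h2).1⟩, hv, (this.1 h2).2⟩
  · rintro ⟨⟨-, h1⟩, -, h2⟩
    exact ⟨by simp [hu], this.2 ⟨h1, h2⟩⟩

theorem K3 : gf Kp = gf (fun w => SI w ∧ Kp w) + gf (fun w => SI w ∧ Kp w) * gf Kp := by
  conv_lhs => rw [(clsK H).2.2, ← (clsK H).1, K2 H]

/-! #### The class `M = Av(132)` -/

theorem M1 : gf (fun w => KI w ∧ Mp w) =
    X + gf (fun w => SI w ∧ Mp w) * gf (fun w => w ≠ [] ∧ av21 w) := by
  rw [(clsM H).2.1, sdec H Mp Mp (fun w => w ≠ [] ∧ av21 w) (invM H)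
    (fun w a => and_congr (H.inv.2.2.2.2.2.2.2.2.2.2.2.2 w a) (H.inv.2.1 w a)) (fun h => h.1 rfl)]
  intro u v hu hv hl
  have := (H.spp u v hu hv hl).2.1
  unfold Mp
  constructor
  · rintro ⟨-, h2⟩
    exact ⟨⟨hu, (this.1 h2).1⟩, hv, (this.1 h2).2⟩
  · rintro ⟨⟨-, h1⟩, -, h2⟩
    exact ⟨by simp [hu], this.2 ⟨h1, h2⟩⟩

theorem M2 : gf (fun w => KD w ∧ Mp w) = gf (fun w => KI w ∧ Mp w) * gf Mp := by
  refine kdec H Mp Mp Mp (invM H) (invM H) (fun h => h.1 rfl) ?_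
  intro u v hu hv hl
  have := (H.spm u v hu hv hl).2.1
  unfold Mp
  constructor
  · rintro ⟨-, h2⟩
    exact ⟨⟨hu, (this.1 h2).1⟩, hv, (this.1 h2).2⟩
  · rintro ⟨⟨-, h1⟩, -, h2⟩
    exact ⟨by simp [hu], this.2 ⟨h1, h2⟩⟩

omit H in
theorem cc (f : ℤ⟦X⟧) (h : constantCoeff f = 1) : f ≠ 0 := by
  rintro rfl
  simp at h

/-- Both Catalan series agree. -/
theorem YY : gf (fun w => KI w ∧ Mp w) = gf (fun w => SI w ∧ Kp w) := by
  have k1 := K1 H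
  have k3 := K3 H
  have m1 := M1 H
  have m2 := M2 H
  have m3 := (clsM H).2.2
  have m4 := (clsM H).1
  have m5 := (clsM H).2.1
  have hd := H.mon.2.2.1
  rw [m2] at m3 m4
  have hsd : gf (fun w => SD w ∧ Mp w) = gf (fun w => KI w ∧ Mp w) - X := by
    rw [m5]; ring
  rw [hsd] at m3
  set Y := gf (fun w => SI w ∧ Kp w) with hY
  set K := gf Kp with hK
  set Z := gf (fun w => KI w ∧ Mp w) with hZ
  set M := gf Mp with hM
  set d := gf (fun w => w ≠ [] ∧ av21 w) with hdd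
  set S := gf (fun w => SI w ∧ Mp w) with hS
  have e1 : Z = X + X * M := by
    linear_combination (1 - X : ℤ⟦X⟧) * m1 + S * hd + X * m4 - X * m3
  have e2 : M = Z + Z * M := by linear_combination m3
  have c1 : constantCoeff Y = 0 := by rw [k1]; simp
  have c2 : constantCoeff Z = 0 := by rw [e1]; simp
  have h3 : Y * (1 - Y) = X := by linear_combination (1 - Y) * k1 + X * k3
  have h4 : Z * (1 - Z) = X := by linear_combination (1 - Z) * e1 + X * e2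
  have h5 : (Z - Y) * (1 - Y - Z) = 0 := by linear_combination h4 - h3
  rcases mul_eq_zero.1 h5 with h | h
  · linear_combination h
  · exact absurd h (cc _ (by simp [c1, c2]))

/-! #### The class `I` -/

theorem I1 : gf (fun w => SI w ∧ Ip w) = X + gf (fun w => KI w ∧ Mp w) * gf Ip := by
  rw [(clsI H).1, kdec H Ip Mp Ip (invM H) (invI H) (fun h => h.1 rfl)]
  intro u v hu hv hl
  obtain ⟨-, -, s1, s2, s3, s4, -, -⟩ := H.spm u v hu hv hl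
  constructor
  · rintro ⟨-, h1, h2, h3, h4⟩
    exact ⟨⟨hu, (s4.1 h4).1⟩, hv, (s1.1 h1).2, (s2.1 h2).2, (s3.1 h3).2, (s4.1 h4).2⟩
  · rintro ⟨⟨-, h0⟩, -, h1, h2, h3, h4⟩
    obtain ⟨i1, i2, i3, i4⟩ := (H.imp u).2.1 h0
    exact ⟨by simp [hu], s1.2 ⟨i1, h1⟩, s2.2 ⟨i2, h2⟩, s3.2 ⟨i3, h3⟩, s4.2 ⟨h0, h4⟩⟩

theorem I2 : gf (fun w => KI w ∧ Ip w) = X + gf (fun w => SI w ∧ Ip w) * gf Kp := by
  rw [(clsI H).2.1, sdec H Ip Ip Kp (invI H) (invK H) (fun h => h.1 rfl)]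
  intro u v hu hv hl
  obtain ⟨-, -, s1, s2, s3, s4, -, -⟩ := H.spp u v hu hv hl
  constructor
  · rintro ⟨-, h1, h2, h3, h4⟩
    exact ⟨⟨hu, (s1.1 h1).1, (s2.1 h2).1, (s3.1 h3).1, (s4.1 h4).1⟩, hv, (s3.1 h3).2⟩
  · rintro ⟨⟨-, h1, h2, h3, h4⟩, -, h0⟩
    obtain ⟨i1, i2, i3, i4⟩ := (H.imp v).1 h0
    exact ⟨by simp [hu], s1.2 ⟨h1, i1⟩, s2.2 ⟨h2, i2⟩, s3.2 ⟨h3, h0⟩, s4.2 ⟨h4, i4⟩⟩

theorem I3 : gf Ip = gf (fun w => SI w ∧ Ip w) + gf (fun w => KI w ∧ Ip w) - X := by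
  have h1 := (clsI H).1
  have h2 := (clsI H).2.1
  have h3 := (clsI H).2.2
  linear_combination h3 - h1 - h2

/-! #### The class `A` -/

theorem A1 : gf (fun w => SI w ∧ Ap w) = X + gf (fun w => KI w ∧ Mp w) * gf Ap := by
  rw [(clsA H).1, kdec H Ap Mp Ap (invM H) (invA H) (fun h => h.1 rfl)]
  intro u v hu hv hl
  obtain ⟨-, -, s1, s2, -, s4, s5, -⟩ := H.spm u v hu hv hl
  constructor
  · rintro ⟨-, h1, h2, h4, h5⟩
    exact ⟨⟨hu, (s4.1 h4).1⟩, hv, (s1.1 h1).2, (s2.1 h2).2, (s4.1 h4).2, (s5.1 h5).2⟩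
  · rintro ⟨⟨-, h0⟩, -, h1, h2, h4, h5⟩
    obtain ⟨i1, i2, i3, i4⟩ := (H.imp u).2.1 h0
    exact ⟨by simp [hu], s1.2 ⟨i1, h1⟩, s2.2 ⟨i2, h2⟩, s4.2 ⟨h0, h4⟩,
      s5.2 ⟨(H.imp u).2.2.1 i3, h5⟩⟩

/-- decreasing words -/
theorem A2 : gf (fun w => SI w ∧ (w ≠ [] ∧ av12 w)) = gf (fun w => w ≠ [] ∧ av12 w) :=
  gf_congr _ _ fun w _ =>
    ⟨fun h => h.2, fun h => ⟨H.mon.2.2.2.1 w h.1 h.2, h⟩⟩

theorem A3 : gf (fun w => SI w ∧ (Ap w ∧ ¬ av12 w)) =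
    gf (fun w => SI w ∧ Ap w) - gf (fun w => w ≠ [] ∧ av12 w) := by
  have := gf_disj (fun w => w ≠ [] ∧ av12 w) (fun w => SI w ∧ (Ap w ∧ ¬ av12 w))
    (fun w => SI w ∧ Ap w) (fun w _ => by
      constructor
      · rintro ⟨h1, h2⟩
        by_cases h : av12 w
        · exact Or.inl ⟨h2.1, h⟩
        · exact Or.inr ⟨h1, h2, h⟩
      · rintro (⟨h1, h2⟩ | ⟨h1, h2, -⟩)
        · obtain ⟨i1, i2, i3, i4⟩ := (H.imp w).2.1 ((H.imp w).2.2.2.2.1 h2).1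
          exact ⟨H.mon.2.2.2.1 w h1 h2, h1, i1, i2, i4, (H.imp w).2.2.1 i3⟩
        · exact ⟨h1, h2⟩)
    (fun w h => h.2.2.2 h.1.2)
  rw [this]; ring

theorem A4 : gf Ap = gf (fun w => SI w ∧ Ap w) +
    (gf (fun w => w ≠ [] ∧ av12 w) * gf Ip +
      (gf (fun w => SI w ∧ Ap w) - gf (fun w => w ≠ [] ∧ av12 w)) * gf Kp) := by
  have h1 := (clsA H).1
  have h3 := (clsA H).2.2
  have hne := H.inv.2.2.2.2.2.2.2.2.2.2.2.2
  have h4 := sdec2 H Ap (fun w => w ≠ [] ∧ av12 w) Ip (fun w => Ap w ∧ ¬ av12 w) Kp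
    (fun w a => and_congr (hne w a) (H.inv.1 w a)) (invI H) (fun h => h.1 rfl)
    (fun w a => and_congr (invA H w a) (not_congr (H.inv.1 w a))) (invK H) (fun h => h.1 rfl)
    (fun u _ h => h.2.2 h.1.2) (by
      intro u v hu hv hl
      obtain ⟨-, -, s1, s2, -, s4, s5, -⟩ := H.spp u v hu hv hl
      constructor
      · rintro ⟨-, h1, h2, h4, h5⟩
        obtain ⟨t1, t2, t3⟩ := s5.1 h5
        by_cases h : av12 u
        · exact Or.inl ⟨⟨hu, h⟩, hv, (s1.1 h1).2, (s2.1 h2).2, t2, (s4.1 h4).2⟩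
        · refine Or.inr ⟨⟨⟨hu, (s1.1 h1).1, (s2.1 h2).1, (s4.1 h4).1, t1⟩, h⟩, hv, ?_⟩
          exact t3.resolve_left h
      · rintro (⟨⟨-, h0⟩, -, h1, h2, h3, h4⟩ | ⟨⟨⟨-, h1, h2, h4, h5⟩, -⟩, -, h0⟩)
        · obtain ⟨i1, i2, i3, i4⟩ := (H.imp u).2.1 ((H.imp u).2.2.2.2.1 h0).1
          exact ⟨by simp [hu], s1.2 ⟨i1, h1⟩, s2.2 ⟨i2, h2⟩, s4.2 ⟨i4, h4⟩,
            s5.2 ⟨(H.imp u).2.2.1 i3, h3, Or.inl h0⟩⟩
        · obtain ⟨i1, i2, i3, i4⟩ := (H.imp v).1 h0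
          exact ⟨by simp [hu], s1.2 ⟨h1, i1⟩, s2.2 ⟨h2, i2⟩, s4.2 ⟨h4, i4⟩,
            s5.2 ⟨h5, i3, Or.inr h0⟩⟩)
  rw [A2 H, A3 H] at h4
  linear_combination h3 - h1 + h4

/-! #### The class `B` -/

theorem B1 : gf (fun w => SD w ∧ Bp w) = gf (fun w => SI w ∧ Bp w) * gf Kp := by
  refine sdec H Bp Bp Kp (invB H) (invK H) (fun h => h.1 rfl) ?_
  intro u v hu hv hl
  obtain ⟨-, -, s1, s2, s3, -, -, s6⟩ := H.spp u v hu hv hl
  constructor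
  · rintro ⟨-, h1, h2, h3, h6⟩
    exact ⟨⟨hu, (s1.1 h1).1, (s2.1 h2).1, (s3.1 h3).1, (s6.1 h6).1⟩, hv, (s3.1 h3).2⟩
  · rintro ⟨⟨-, h1, h2, h3, h6⟩, -, h0⟩
    obtain ⟨i1, i2, i3, i4⟩ := (H.imp v).1 h0
    exact ⟨by simp [hu], s1.2 ⟨h1, i1⟩, s2.2 ⟨h2, i2⟩, s3.2 ⟨h3, h0⟩,
      s6.2 ⟨h6, (H.imp v).2.2.2.1 i4⟩⟩

theorem B2 : gf Bp = gf (fun w => SI w ∧ Bp w) + gf (fun w => SI w ∧ Bp w) * gf Kp := by
  conv_lhs => rw [(clsB H).2.2, ← (clsB H).1, B1 H]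

theorem B3 : gf (fun w => KI w ∧ (Ip w ∧ ¬ av132 w)) =
    gf (fun w => KI w ∧ Ip w) - gf (fun w => KI w ∧ Mp w) := by
  have := gf_disj (fun w => KI w ∧ Mp w) (fun w => KI w ∧ (Ip w ∧ ¬ av132 w))
    (fun w => KI w ∧ Ip w) (fun w _ => by
      constructor
      · rintro ⟨h1, h2⟩
        by_cases h : av132 w
        · exact Or.inl ⟨h1, h2.1, h⟩
        · exact Or.inr ⟨h1, h2, h⟩
      · rintro (⟨h1, h2, h3⟩ | ⟨h1, h2, -⟩)
        · exact ⟨h1, h2, (H.imp w).2.1 h3⟩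
        · exact ⟨h1, h2⟩)
    (fun w h => h.2.2.2 h.1.2.2)
  rw [this]; ring

theorem B4 : gf (fun w => SI w ∧ Bp w) = X + (gf (fun w => KI w ∧ Mp w) * gf Bp +
    (gf (fun w => KI w ∧ Ip w) - gf (fun w => KI w ∧ Mp w)) * gf (fun w => w ≠ [] ∧ av21 w)) := by
  have h1 := (clsB H).1
  have hne := H.inv.2.2.2.2.2.2.2.2.2.2.2.2
  have h4 := kdec2 H Bp Mp Bp (fun w => Ip w ∧ ¬ av132 w) (fun w => w ≠ [] ∧ av21 w)
    (invM H) (invB H) (fun h => h.1 rfl)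
    (fun w a => and_congr (invI H w a) (not_congr (H.inv.2.2.2.1 w a)))
    (fun w a => and_congr (hne w a) (H.inv.2.1 w a)) (fun h => h.1 rfl)
    (fun u _ h => h.2.2 h.1.2) (by
      intro u v hu hv hl
      obtain ⟨-, -, s1, s2, s3, -, -, s6⟩ := H.spm u v hu hv hl
      constructor
      · rintro ⟨-, h1, h2, h3, h6⟩
        obtain ⟨t1, t2, t3⟩ := s6.1 h6
        by_cases h : av132 u
        · exact Or.inl ⟨⟨hu, h⟩, hv, (s1.1 h1).2, (s2.1 h2).2, (s3.1 h3).2, t2⟩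
        · refine Or.inr ⟨⟨⟨hu, (s1.1 h1).1, (s2.1 h2).1, (s3.1 h3).1, t1⟩, h⟩, hv, ?_⟩
          exact t3.resolve_left h
      · rintro (⟨⟨-, h0⟩, -, h1, h2, h3, h6⟩ | ⟨⟨⟨-, h1, h2, h3, h4⟩, -⟩, -, h0⟩)
        · obtain ⟨i1, i2, i3, i4⟩ := (H.imp u).2.1 h0
          exact ⟨by simp [hu], s1.2 ⟨i1, h1⟩, s2.2 ⟨i2, h2⟩, s3.2 ⟨i3, h3⟩,
            s6.2 ⟨i4, h6, Or.inl h0⟩⟩
        · obtain ⟨i1, i2, i3, i4⟩ := (H.imp v).2.1 ((H.imp v).2.2.2.2.2 h0).1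
          exact ⟨by simp [hu], s1.2 ⟨h1, i1⟩, s2.2 ⟨h2, i2⟩, s3.2 ⟨h3, i3⟩,
            s6.2 ⟨h4, (H.imp v).2.2.2.1 i4, Or.inr h0⟩⟩)
  rw [B3 H] at h4
  rw [h1, h4]

/-- increasing and decreasing permutations have the same generating function. -/
theorem dd : gf (fun w => w ≠ [] ∧ av21 w) = gf (fun w => w ≠ [] ∧ av12 w) := by
  have h1 := H.mon.2.1
  have h2 := H.mon.2.2.1
  have h3 : (1 - X : ℤ⟦X⟧) * (gf (fun w => w ≠ [] ∧ av21 w) - gf (fun w => w ≠ [] ∧ av12 w)) = 0 := by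
    linear_combination h2 - h1
  rcases mul_eq_zero.1 h3 with h | h
  · exact absurd h (cc _ (by simp))
  · linear_combination h

/-- The generating function of the nonempty words of the class. -/
theorem total : (1 - X) * (1 - 4 * X) * (1 + gf (fun w => Ap w ∨ Bp w)) = 1 - 4 * X + X ^ 2 := by
  have hu := gf_union Ap Bp
  have hI : gf (fun w => Ap w ∧ Bp w) = gf Ip := by
    refine gf_congr _ _ fun w _ => ?_
    constructor
    · rintro ⟨⟨h0, h1, h2, h3, -⟩, -, -, -, h4, -⟩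
      exact ⟨h0, h1, h2, h4, h3⟩
    · rintro ⟨h0, h1, h2, h3, h4⟩
      exact ⟨⟨h0, h1, h2, h4, (H.imp w).2.2.1 h3⟩, h0, h1, h2, h3, (H.imp w).2.2.2.1 h4⟩
  rw [hI] at hu
  have hY := YY H
  have i1 := I1 H
  have a1 := A1 H
  have b4 := B4 H
  rw [dd H] at b4
  rw [hY] at i1 a1 b4
  have := H.alg (gf (fun w => SI w ∧ Kp w)) (gf Kp) (gf (fun w => w ≠ [] ∧ av12 w)) (gf Ip)
    (gf (fun w => SI w ∧ Ip w)) (gf (fun w => KI w ∧ Ip w)) (gf Ap) (gf (fun w => SI w ∧ Ap w))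
    (gf Bp) (gf (fun w => SI w ∧ Bp w)) (K1 H) (K3 H) H.mon.2.1 i1 (I2 H) (I3 H) a1 (A4 H)
    b4 (B2 H)
  rw [← this]
  have e : gf (fun w => Ap w ∨ Bp w) = gf Ap + gf Bp - gf Ip := by linear_combination hu
  rw [e]

end

end Asm

end Pool.Agent.T6.H99.RC
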