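import Mathlib

/-!
# Project RC (MP_163b0f_co): a class of separable permutations that contains `Av(231)` and has a
rational generating function

`C = Av(2413, 3142, 2431, 12453) ∪ Av(2413, 3142, 1342, 35421)`; it has `(4^(n-1) + 2) / 3`
permutations of length `n ≥ 1`.

A word is a list of natural numbers.  Every module `X` is a file `Pool/Agent/T6/H99/RC/X.lean` which
proves `theorem x : StmtX`.
-/

set_option autoImplicit false

namespace Pool.Agent.T6.H99.RC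

open PowerSeries

/-! ### Words and patterns -/

/-- All entries of `u` are smaller than all entries of `v`. -/
def lt (u v : List ℕ) : Prop := ∀ a ∈ u, ∀ b ∈ v, a < b

/-- `w` avoids 12. -/
def av12 (w : List ℕ) : Prop := ∀ a b, [a, b].Sublist w → ¬ a < b
/-- `w` avoids 21. -/
def av21 (w : List ℕ) : Prop := ∀ a b, [a, b].Sublist w → ¬ b < a
/-- `w` avoids 231. -/
def av231 (w : List ℕ) : Prop := ∀ a b c, [a, b, c].Sublist w → ¬ (c < a ∧ a < b)
/-- `w` avoids 132. -/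
def av132 (w : List ℕ) : Prop := ∀ a b c, [a, b, c].Sublist w → ¬ (a < c ∧ c < b)
/-- `w` avoids 2413. -/
def av2413 (w : List ℕ) : Prop :=
  ∀ a b c d, [a, b, c, d].Sublist w → ¬ (c < a ∧ a < d ∧ d < b)
/-- `w` avoids 3142. -/
def av3142 (w : List ℕ) : Prop :=
  ∀ a b c d, [a, b, c, d].Sublist w → ¬ (b < d ∧ d < a ∧ a < c)
/-- `w` avoids 1342. -/
def av1342 (w : List ℕ) : Prop :=
  ∀ a b c d, [a, b, c, d].Sublist w → ¬ (a < d ∧ d < b ∧ b < c)
/-- `w` avoids 2431. -/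
def av2431 (w : List ℕ) : Prop :=
  ∀ a b c d, [a, b, c, d].Sublist w → ¬ (d < a ∧ a < c ∧ c < b)
/-- `w` avoids 12453. -/
def av12453 (w : List ℕ) : Prop :=
  ∀ a b c d e, [a, b, c, d, e].Sublist w → ¬ (a < b ∧ b < e ∧ e < c ∧ c < d)
/-- `w` avoids 35421. -/
def av35421 (w : List ℕ) : Prop :=
  ∀ a b c d e, [a, b, c, d, e].Sublist w → ¬ (e < d ∧ d < a ∧ a < c ∧ c < b)

/-- `w` is sum decomposable. -/
def SD (w : List ℕ) : Prop := ∃ u v, w = u ++ v ∧ u ≠ [] ∧ v ≠ [] ∧ lt u v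
/-- `w` is skew decomposable. -/
def KD (w : List ℕ) : Prop := ∃ u v, w = u ++ v ∧ u ≠ [] ∧ v ≠ [] ∧ lt v u
/-- `w` is sum indecomposable (and nonempty). -/
def SI (w : List ℕ) : Prop := w ≠ [] ∧ ¬ SD w
/-- `w` is skew indecomposable (and nonempty). -/
def KI (w : List ℕ) : Prop := w ≠ [] ∧ ¬ KD w

/-- The words of the permutations of `0, ..., n - 1`. -/
def perms (n : ℕ) : Finset (List ℕ) := (List.range n).permutations.toFinset

open Classical in
/-- The generating function of a property of permutations. -/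
noncomputable def gf (P : List ℕ → Prop) : ℤ⟦X⟧ :=
  PowerSeries.mk fun n => (((perms n).filter P).card : ℤ)

/-- `P` is invariant under shifts of the values. -/
def Inv (P : List ℕ → Prop) : Prop := ∀ (w : List ℕ) (a : ℕ), P (w.map (· + a)) ↔ P w

/-! ### Modules -/

/-- Module DEC: a word without repetitions that avoids 2413 and 3142 is decomposable. -/
def StmtDEC : Prop := ∀ w : List ℕ, w.Nodup → 2 ≤ w.length → av2413 w → av3142 w → SD w ∨ KD w

/-- Module FST: not both, and the first component. -/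
def StmtFST : Prop :=
  (∀ w, ¬ (SD w ∧ KD w)) ∧
  (∀ w, SD w ↔ ∃ u v, w = u ++ v ∧ v ≠ [] ∧ lt u v ∧ SI u) ∧
  (∀ w, KD w ↔ ∃ u v, w = u ++ v ∧ v ≠ [] ∧ lt v u ∧ KI u)

/-- Module CVP: the product formula for sums. -/
def StmtCVP : Prop := ∀ P Q : List ℕ → Prop, Inv P → Inv Q → ¬ Q [] →
  gf (fun w => ∃ u v, w = u ++ v ∧ lt u v ∧ (SI u ∧ P u) ∧ Q v) = gf (fun w => SI w ∧ P w) * gf Q

/-- Module CVM: the product formula for skew sums. -/
def StmtCVM : Prop := ∀ P Q : List ℕ → Prop, Inv P → Inv Q → ¬ Q [] →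
  gf (fun w => ∃ u v, w = u ++ v ∧ lt v u ∧ (KI u ∧ P u) ∧ Q v) = gf (fun w => KI w ∧ P w) * gf Q

/-- Module SPP: avoidance in a sum. -/
def StmtSPP : Prop := ∀ u v : List ℕ, u ≠ [] → v ≠ [] → lt u v →
  (av231 (u ++ v) ↔ av231 u ∧ av231 v) ∧
  (av132 (u ++ v) ↔ av132 u ∧ av21 v) ∧
  (av2413 (u ++ v) ↔ av2413 u ∧ av2413 v) ∧
  (av3142 (u ++ v) ↔ av3142 u ∧ av3142 v) ∧
  (av1342 (u ++ v) ↔ av1342 u ∧ av231 v) ∧
  (av2431 (u ++ v) ↔ av2431 u ∧ av2431 v) ∧
  (av12453 (u ++ v) ↔ av12453 u ∧ av1342 v ∧ (av12 u ∨ av231 v)) ∧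
  (av35421 (u ++ v) ↔ av35421 u ∧ av35421 v)

/-- Module SPM: avoidance in a skew sum. -/
def StmtSPM : Prop := ∀ u v : List ℕ, u ≠ [] → v ≠ [] → lt v u →
  (av231 (u ++ v) ↔ av12 u ∧ av231 v) ∧
  (av132 (u ++ v) ↔ av132 u ∧ av132 v) ∧
  (av2413 (u ++ v) ↔ av2413 u ∧ av2413 v) ∧
  (av3142 (u ++ v) ↔ av3142 u ∧ av3142 v) ∧
  (av1342 (u ++ v) ↔ av1342 u ∧ av1342 v) ∧
  (av2431 (u ++ v) ↔ av132 u ∧ av2431 v) ∧
  (av12453 (u ++ v) ↔ av12453 u ∧ av12453 v) ∧
  (av35421 (u ++ v) ↔ av2431 u ∧ av35421 v ∧ (av132 u ∨ av21 v))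

/-- Module IMP: implications between avoidance properties. -/
def StmtIMP : Prop := ∀ w : List ℕ,
  (av231 w → av2413 w ∧ av3142 w ∧ av1342 w ∧ av2431 w) ∧
  (av132 w → av2413 w ∧ av3142 w ∧ av1342 w ∧ av2431 w) ∧
  (av1342 w → av12453 w) ∧ (av2431 w → av35421 w) ∧
  (av12 w → av132 w ∧ av231 w) ∧ (av21 w → av132 w ∧ av231 w)

/-- Module INV: shift invariance. -/
def StmtINV : Prop :=
  Inv av12 ∧ Inv av21 ∧ Inv av231 ∧ Inv av132 ∧ Inv av2413 ∧ Inv av3142 ∧ Inv av1342 ∧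
    Inv av2431 ∧ Inv av12453 ∧ Inv av35421 ∧ Inv SI ∧ Inv KI ∧ Inv (fun w => w ≠ [])

/-- Module MON: words with one entry, decreasing and increasing words. -/
def StmtMON : Prop :=
  gf (fun w => w.length = 1) = X ∧
  (1 - X) * gf (fun w => w ≠ [] ∧ av12 w) = X ∧
  (1 - X) * gf (fun w => w ≠ [] ∧ av21 w) = X ∧
  (∀ w, w ≠ [] → av12 w → SI w) ∧ (∀ w, w ≠ [] → av21 w → KI w) ∧
  (∀ w, w.Nodup → av12 w → KI w → w.length = 1) ∧ (∀ w, w.Nodup → av21 w → SI w → w.length = 1)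

/-- Module CLS: decomposition of the generating function of a class of separable permutations. -/
def StmtCLS : Prop := ∀ P : List ℕ → Prop, (∀ w, P w → w ≠ [] ∧ av2413 w ∧ av3142 w) →
  (∀ w, w.length = 1 → P w) →
  gf (fun w => SI w ∧ P w) = X + gf (fun w => KD w ∧ P w) ∧
  gf (fun w => KI w ∧ P w) = X + gf (fun w => SD w ∧ P w) ∧
  gf P = X + gf (fun w => KD w ∧ P w) + gf (fun w => SD w ∧ P w)

/-- Module ALG: the algebra of the generating functions. `Y`: sum indecomposable permutations in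
`Av(231)` (and skew indecomposable ones in `Av(132)`), `K`: nonempty permutations in `Av(231)`; `d`:
decreasing permutations. -/
def StmtALG : Prop := ∀ Y K d i iS iJ a aS b bS : ℤ⟦X⟧,
  Y = X + X * K → K = Y + Y * K → (1 - X) * d = X →
  iS = X + Y * i → iJ = X + iS * K → i = iS + iJ - X →
  aS = X + Y * a → a = aS + (d * i + (aS - d) * K) →
  bS = X + (Y * b + (iJ - Y) * d) → b = bS + bS * K →
  (1 - X) * (1 - 4 * X) * (1 + (a + b - i)) = 1 - 4 * X + X ^ 2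

/-! ### Permutations -/

/-- `π` contains `σ`: a subsequence of `π` is order-isomorphic to `σ`. -/
def Contains {n k : ℕ} (π : Equiv.Perm (Fin n)) (σ : Equiv.Perm (Fin k)) : Prop :=
  ∃ f : Fin k → Fin n, StrictMono f ∧ ∀ i j, σ i < σ j ↔ π (f i) < π (f j)

/-- the permutation 231 -/
def p231 : Equiv.Perm (Fin 3) := ⟨![1, 2, 0], ![2, 0, 1], by decide, by decide⟩
/-- the permutation 2413 -/
def p2413 : Equiv.Perm (Fin 4) := ⟨![1, 3, 0, 2], ![2, 0, 3, 1], by decide, by decide⟩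
/-- the permutation 3142 -/
def p3142 : Equiv.Perm (Fin 4) := ⟨![2, 0, 3, 1], ![1, 3, 0, 2], by decide, by decide⟩
/-- the permutation 1342 -/
def p1342 : Equiv.Perm (Fin 4) := ⟨![0, 2, 3, 1], ![0, 3, 1, 2], by decide, by decide⟩
/-- the permutation 2431 -/
def p2431 : Equiv.Perm (Fin 4) := ⟨![1, 3, 2, 0], ![3, 0, 2, 1], by decide, by decide⟩
/-- the permutation 12453 -/
def p12453 : Equiv.Perm (Fin 5) := ⟨![0, 1, 3, 4, 2], ![0, 1, 4, 2, 3], by decide, by decide⟩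
/-- the permutation 35421 -/
def p35421 : Equiv.Perm (Fin 5) := ⟨![2, 4, 3, 1, 0], ![4, 3, 0, 2, 1], by decide, by decide⟩

/-- The word of a permutation. -/
def word {n : ℕ} (π : Equiv.Perm (Fin n)) : List ℕ := List.ofFn fun i => (π i : ℕ)

/-- Module TRA: counting permutations by words. -/
def StmtTRA : Prop := ∀ (n : ℕ) (P : List ℕ → Prop),
  PowerSeries.coeff n (gf P) = (Nat.card {π : Equiv.Perm (Fin n) // P (word π)} : ℤ)

/-- Module TRB: containment and words. -/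
def StmtTRB : Prop := ∀ (n : ℕ) (π : Equiv.Perm (Fin n)),
  (Contains π p231 ↔ ¬ av231 (word π)) ∧ (Contains π p2413 ↔ ¬ av2413 (word π)) ∧
  (Contains π p3142 ↔ ¬ av3142 (word π)) ∧ (Contains π p1342 ↔ ¬ av1342 (word π)) ∧
  (Contains π p2431 ↔ ¬ av2431 (word π)) ∧ (Contains π p12453 ↔ ¬ av12453 (word π)) ∧
  (Contains π p35421 ↔ ¬ av35421 (word π))

/-- Module FB: a union of two finitely based classes is finitely based. -/
def StmtFB : Prop := ∀ B₁ B₂ : Finset (Σ k, Equiv.Perm (Fin k)),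
  ∃ B : Finset (Σ k, Equiv.Perm (Fin k)), ∀ (n : ℕ) (π : Equiv.Perm (Fin n)),
    ((∀ β ∈ B₁, ¬ Contains π β.2) ∨ (∀ β ∈ B₂, ¬ Contains π β.2)) ↔ ∀ β ∈ B, ¬ Contains π β.2

end Pool.Agent.T6.H99.RC
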