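import Pool.Agent.T6.H99.RC.All

/-! # Project RC: permutation classes and the final theorem -/

set_option autoImplicit false

namespace Pool.Agent.T6.H99.RC

open PowerSeries

/-- A permutation class: a set of permutations of all lengths, closed under containment. -/
@[ext] structure PermClass where
  /-- the permutations of length `n` in the class -/
  carrier : (n : ℕ) → Set (Equiv.Perm (Fin n))
  down : ∀ (n k : ℕ) (π : Equiv.Perm (Fin n)) (σ : Equiv.Perm (Fin k)),
    π ∈ carrier n → Contains π σ → σ ∈ carrier k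

theorem contains_trans {n k m : ℕ} (π : Equiv.Perm (Fin n)) (σ : Equiv.Perm (Fin k))
    (τ : Equiv.Perm (Fin m)) (h1 : Contains π σ) (h2 : Contains σ τ) : Contains π τ := by
  obtain ⟨f, hf, hf'⟩ := h1
  obtain ⟨g, hg, hg'⟩ := h2
  exact ⟨f ∘ g, hf.comp hg, fun i j => (hg' i j).trans (hf' (g i) (g j))⟩

/-- `Av(B)`: the class of the permutations that avoid all permutations in `B`. -/
def Av (B : Set (Σ k, Equiv.Perm (Fin k))) : PermClass where
  carrier _ := {π | ∀ β ∈ B, ¬ Contains π β.2}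
  down _ _ π σ hπ hσ β hβ h := hπ β hβ (contains_trans π σ β.2 hσ h)

/-- The generating function of a class. -/
noncomputable def genFun (C : PermClass) : ℤ⟦X⟧ :=
  PowerSeries.mk fun n => (Nat.card (C.carrier n) : ℤ)

/-- A power series is rational. -/
def IsRational (f : ℤ⟦X⟧) : Prop :=
  ∃ P Q : Polynomial ℤ, Q ≠ 0 ∧ (Q : ℤ⟦X⟧) * f = (P : ℤ⟦X⟧)

namespace Asm

theorem gf_nil : gf (fun w => w = []) = 1 := by
  ext n
  rw [coeff_gf, coeff_one]
  rcases n with _ | n
  · have : ({w | w ∈ perms 0 ∧ w = []} : Set (List ℕ)) = {[]} := by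
      ext w
      simp only [Set.mem_ofPred_eq, Set.mem_singleton_iff]
      constructor
      · exact fun h => h.2
      · rintro rfl
        exact ⟨(mem_perms 0 []).2 (by simp), rfl⟩
    rw [this]
    simp
  · have : ({w | w ∈ perms (n + 1) ∧ w = []} : Set (List ℕ)) = ∅ := by
      ext w
      simp only [Set.mem_ofPred_eq, Set.mem_empty_iff_false, iff_false]
      rintro ⟨h, rfl⟩
      have := ((mem_perms (n + 1) []).1 h).length_eq
      simp at this
    rw [this]
    simp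

/-- the property of words that defines the class -/
def Cw (w : List ℕ) : Prop :=
  (av2413 w ∧ av3142 w ∧ av2431 w ∧ av12453 w) ∨ (av2413 w ∧ av3142 w ∧ av1342 w ∧ av35421 w)

theorem nil_Cw : Cw [] := by
  refine Or.inl ⟨?_, ?_, ?_, ?_⟩ <;> intro a b c d
  · intro h; simp at h
  · intro h; simp at h
  · intro h; simp at h
  · intro e h; simp at h

theorem gf_Cw (H : Hyp) : (1 - X) * (1 - 4 * X) * gf Cw = 1 - 4 * X + X ^ 2 := by
  rw [← total H]
  congr 1
  rw [← gf_nil]
  refine gf_disj _ _ _ (fun w _ => ?_) ?_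
  · constructor
    · intro h
      rcases eq_or_ne w [] with h0 | h0
      · exact Or.inl h0
      · right
        rcases h with h | h
        · exact Or.inl ⟨h0, h⟩
        · exact Or.inr ⟨h0, h⟩
    · rintro (rfl | h | h)
      · exact nil_Cw
      · exact Or.inl h.2
      · exact Or.inr h.2
  · rintro w ⟨rfl, h | h⟩
    · exact h.1 rfl
    · exact h.1 rfl

/-- From the generating function to the numbers. -/
theorem numbers (c : ℕ → ℕ)
    (h : (1 - X) * (1 - 4 * X) * PowerSeries.mk (fun n => (c n : ℤ)) = 1 - 4 * X + X ^ 2) (n : ℕ) :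
    3 * c (n + 1) = 4 ^ n + 2 := by
  have h1 : (PowerSeries.mk fun n : ℕ => ((4 : ℤ) ^ n)) * (1 - 4 * X) = 1 := by
    ext m
    rw [mul_sub, mul_one, ← mul_assoc, mul_comm _ (4 : ℤ⟦X⟧), map_sub]
    rcases m with _ | m
    · simp
    · rw [coeff_succ_mul_X, coeff_mk, coeff_one]
      have : (4 : ℤ⟦X⟧) = C (4 : ℤ) := by simp
      rw [this, coeff_C_mul, coeff_mk]
      simp [pow_succ]
      ring
  have h2 : (PowerSeries.mk fun _ : ℕ => (1 : ℤ)) * (1 - X) = 1 := by
    ext m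
    rw [mul_sub, mul_one, map_sub]
    rcases m with _ | m
    · simp
    · rw [coeff_succ_mul_X, coeff_mk, coeff_one]
      simp
  set F : ℤ⟦X⟧ := PowerSeries.mk fun n : ℕ => ((4 : ℤ) ^ n) with hF
  set G : ℤ⟦X⟧ := PowerSeries.mk fun _ : ℕ => (1 : ℤ) with hG
  have h3 : 3 * PowerSeries.mk (fun n => (c n : ℤ)) = 3 + X * F + 2 * X * G := by
    set c' : ℤ⟦X⟧ := PowerSeries.mk (fun n => (c n : ℤ)) with hc
    have e : 3 * c' = 3 * c' * ((F * (1 - 4 * X)) * (G * (1 - X))) := by rw [h1, h2]; ring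
    rw [e]
    have e2 : 3 * c' * ((F * (1 - 4 * X)) * (G * (1 - X))) =
        3 * (F * G) * ((1 - X) * (1 - 4 * X) * c') := by ring
    rw [e2, h]
    have e3 : 3 * (F * G) * (1 - 4 * X + X ^ 2) =
        3 * (F * (1 - 4 * X)) * (G * (1 - X)) + X * F * (G * (1 - X)) +
          2 * X * G * (F * (1 - 4 * X)) := by ring
    rw [e3, h1, h2]
    ring
  have h4 := congrArg (coeff (n + 1)) h3
  have e3 : (3 : ℤ⟦X⟧) = C (3 : ℤ) := by simp
  have e2 : (2 : ℤ⟦X⟧) * X * G = X * (C (2 : ℤ) * G) := by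
    have : (2 : ℤ⟦X⟧) = C (2 : ℤ) := by simp
    rw [this]; ring
  rw [e2, e3, coeff_C_mul, map_add, map_add, coeff_succ_X_mul, coeff_succ_X_mul, coeff_C_mul,
    coeff_mk, hF, hG, coeff_mk, coeff_mk, coeff_C] at h4
  simp at h4
  exact_mod_cast h4

end Asm

open Asm in
/-- The final theorem, from all modules. -/
theorem final (H : Hyp) (hA : StmtTRA) (hB : StmtTRB) (hF : StmtFB) : ∃ C : PermClass,
    (∀ n, C.carrier n =
      (Av {⟨4, p2413⟩, ⟨4, p3142⟩, ⟨4, p2431⟩, ⟨5, p12453⟩}).carrier n ∪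
      (Av {⟨4, p2413⟩, ⟨4, p3142⟩, ⟨4, p1342⟩, ⟨5, p35421⟩}).carrier n) ∧
    (∃ B : Finset (Σ k, Equiv.Perm (Fin k)), C = Av (B : Set (Σ k, Equiv.Perm (Fin k)))) ∧
    (∀ n, (Av {⟨3, p231⟩}).carrier n ⊆ C.carrier n) ∧
    (∀ n, C.carrier n ⊆ (Av {⟨4, p2413⟩, ⟨4, p3142⟩}).carrier n) ∧
    (1 - X) * (1 - 4 * X) * genFun C = 1 - 4 * X + X ^ 2 ∧
    IsRational (genFun C) ∧
    ∀ n, 3 * Nat.card (C.carrier (n + 1)) = 4 ^ n + 2 := by
  classical
  obtain ⟨B, hBB⟩ := hF {⟨4, p2413⟩, ⟨4, p3142⟩, ⟨4, p2431⟩, ⟨5, p12453⟩}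
    {⟨4, p2413⟩, ⟨4, p3142⟩, ⟨4, p1342⟩, ⟨5, p35421⟩}
  have hcar : ∀ n (π : Equiv.Perm (Fin n)), (∀ β ∈ B, ¬ Contains π β.2) ↔ Cw (word π) := by
    intro n π
    obtain ⟨-, b1, b2, b3, b4, b5, b6⟩ := hB n π
    rw [← hBB n π]
    simp only [Finset.mem_insert, Finset.mem_singleton, forall_eq_or_imp, forall_eq, b1, b2, b3, b4,
      b5, b6, not_not]
    rfl
  have hid : ∀ n, (Av (B : Set (Σ k, Equiv.Perm (Fin k)))).carrier n =
      {π : Equiv.Perm (Fin n) | Cw (word π)} := by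
    intro n
    ext π
    exact hcar n π
  have hgf : genFun (Av (B : Set (Σ k, Equiv.Perm (Fin k)))) = gf Cw := by
    ext n
    rw [hA n Cw, genFun, coeff_mk, hid n]
    rfl
  have hmain : (1 - X) * (1 - 4 * X) * genFun (Av (B : Set (Σ k, Equiv.Perm (Fin k)))) =
      1 - 4 * X + X ^ 2 := by
    rw [hgf]; exact gf_Cw H
  refine ⟨Av (B : Set (Σ k, Equiv.Perm (Fin k))), ?_, ⟨B, rfl⟩, ?_, ?_, hmain, ?_, ?_⟩
  · intro n
    ext π
    have := hBB n π
    simp only [Finset.mem_insert, Finset.mem_singleton] at this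
    exact this.symm
  · intro n π hπ
    rw [hid n]
    have h1 : ¬ Contains π p231 := hπ ⟨3, p231⟩ rfl
    rw [(hB n π).1, not_not] at h1
    obtain ⟨i1, i2, i3, i4⟩ := (H.imp (word π)).1 h1
    exact Or.inl ⟨i1, i2, i4, (H.imp (word π)).2.2.1 i3⟩
  · intro n π hπ
    rw [hid n] at hπ
    have h2 : av2413 (word π) ∧ av3142 (word π) := by
      rcases hπ with h | h
      · exact ⟨h.1, h.2.1⟩
      · exact ⟨h.1, h.2.1⟩
    intro β hβ
    rcases hβ with rfl | hβ
    · change ¬ Contains π p2413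
      rw [(hB n π).2.1, not_not]
      exact h2.1
    · rw [Set.mem_singleton_iff] at hβ
      subst hβ
      change ¬ Contains π p3142
      rw [(hB n π).2.2.1, not_not]
      exact h2.2
  · refine ⟨1 - Polynomial.C 4 * Polynomial.X + Polynomial.X ^ 2,
      (1 - Polynomial.X) * (1 - Polynomial.C 4 * Polynomial.X), ?_, ?_⟩
    · intro h
      have := congrArg (Polynomial.eval 0) h
      simp at this
    · have e : (Polynomial.C (4 : ℤ) : Polynomial ℤ) = 4 := by simp
      rw [e]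
      have e4 : ((4 : Polynomial ℤ) : ℤ⟦X⟧) = 4 := by
        have : (4 : Polynomial ℤ) = Polynomial.C 4 := by simp
        rw [this, Polynomial.coe_C]
        simp
      simp only [Polynomial.coe_mul, Polynomial.coe_sub, Polynomial.coe_add, Polynomial.coe_one,
        Polynomial.coe_X, Polynomial.coe_pow, e4]
      exact hmain
  · exact numbers (fun n => Nat.card ((Av (B : Set (Σ k, Equiv.Perm (Fin k)))).carrier n)) hmain

end Pool.Agent.T6.H99.RC
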